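import Mathlib
set_option autoImplicit false

/-!
# `HP(C₀)`, `HPS(C₀)` and `SHPS(C₀)` are decidable

`C₀` is the class of finite 0-simple semigroups.  We prove that for each of the three operators
`K = HP, HPS, SHPS` the class `K(C₀)` is decidable from multiplication tables.

Outline.  In all cases we bound, computably in `n = |S|`, the number and the sizes of the 0-simple
factors needed; then a bounded search decides membership (a small language of bounded arithmetic
formulas is shown to be primitive recursive and the search is written in it).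

* `HP`: given `f : ∏ C_i → S` onto, each `C_i` is first replaced by the 0-simple subsemigroup of the
  elements whose R- and L-classes are met by `O(n)` chosen elements, then divided by the congruence
  of having the same R-class, the same L-class and the same effect on `f` in all contexts; the
  quotient has size bounded in `n`.  Equal coordinates are then merged.
* Words as paths: given subsemigroups `U_i` of 0-simple semigroups `C_i` and chosen tuples `x_s`
  (`s ∈ S`), let `D_i` be the digraph on `S` recording which products of two chosen elements are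
  nonzero in `C_i`.  A word is nonzero in coordinate `i` iff it is a path of `D_i`, and closed paths
  have powers acting as local right identities.  Coordinates with equal digraphs are treated alike,
  so there is one coordinate for each digraph.
* Conversely (`RC`): a right congruence of finite index on words, refining the last letter and
  compatible with pumping closed paths of `D`, is realised in a Rees matrix semigroup of bounded
  size: arcs of `D` act on a finite set of states by partial injections, these are extended to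
  permutations, which are the entries of the sandwich matrix.
* `HPS`: the right congruences needed for `f : ∏ U_i → S` have boundedly many classes.
* `SHPS`: for each digraph `D` let `kap D` be the least congruence on words which identifies all
  non-paths of `D`, allows to replace `s t` by the letter `s · t` in nonempty contexts, and pumps
  closed paths; it has at most `n + n²` classes.  Then `S ∈ SHPS(C₀)` iff any two words which are
  `kap D`-equivalent for all `D` have the same value in `S`.  Necessity (`shps_nec`) uses masks: for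
  a digraph `E`, the coordinates `i` with `D_i ≱ E` are replaced by zero; for each word there is a
  largest digraph that can be added for free.  Sufficiency (`shps_suf`) builds the required quotient
  of a product of bounded size.
-/

namespace Pool.Agent.Results.MP_99598b_lc.Decidable

/-- A finite nonempty semigroup. -/
structure FinSg where
  carrier : Type
  sg : Semigroup carrier
  fin : Finite carrier
  ne : Nonempty carrier

attribute [instance] FinSg.sg FinSg.fin FinSg.ne

instance : CoeSort FinSg Type := ⟨FinSg.carrier⟩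

/-- homomorphic images of members of `C` -/
def opH (C : Set FinSg) : Set FinSg :=
  {B | ∃ A ∈ C, ∃ f : A →ₙ* B, Function.Surjective f}

/-- semigroups embeddable into members of `C` -/
def opS (C : Set FinSg) : Set FinSg :=
  {B | ∃ A ∈ C, ∃ f : B →ₙ* A, Function.Injective f}

/-- the direct product of `n + 1` finite semigroups -/
def prodSg {n : ℕ} (T : Fin (n + 1) → FinSg) : FinSg :=
  ⟨∀ i, T i, inferInstance, inferInstance, inferInstance⟩

/-- finite direct products of members of `C` (at least one factor), up to isomorphism -/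
def opP (C : Set FinSg) : Set FinSg :=
  {B | ∃ (n : ℕ) (T : Fin (n + 1) → FinSg), (∀ i, T i ∈ C) ∧ Nonempty (B ≃* prodSg T)}

/-- A semigroup `S` is 0-simple if it has a zero `z`, `S² ≠ {z}`, and its only ideals (nonempty
subsets `I` with `S I ⊆ I` and `I S ⊆ I`) are `{z}` and `S`. -/
def ZeroSimple (S : Type) [Semigroup S] : Prop :=
  ∃ z : S, (∀ x, z * x = z ∧ x * z = z) ∧ (∃ x y : S, x * y ≠ z) ∧
    ∀ I : Set S, I.Nonempty → (∀ a ∈ I, ∀ x, x * a ∈ I ∧ a * x ∈ I) → I = {z} ∨ I = Set.univ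

/-- the class of all finite 0-simple semigroups -/
def C0 : Set FinSg := {S | ZeroSimple S}

/-- entry `(i, j)` of the `n × n` table written row by row in the list `l` -/
def tmul (n : ℕ) (l : List ℕ) (i j : ℕ) : ℕ := l.getD (i * n + j) 0

/-- `l` is the multiplication table (row by row) of a semigroup on `{0, …, n-1}`, `n > 0` -/
def IsTable (n : ℕ) (l : List ℕ) : Prop :=
  0 < n ∧ l.length = n * n ∧ (∀ x ∈ l, x < n) ∧
    ∀ i < n, ∀ j < n, ∀ k < n, tmul n l (tmul n l i j) k = tmul n l i (tmul n l j k)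

theorem tmul_lt {n : ℕ} {l : List ℕ} (h : IsTable n l) (i j : ℕ) : tmul n l i j < n := by
  unfold tmul
  by_cases hh : i * n + j < l.length
  · rw [List.getD_eq_getElem _ _ hh]
    exact h.2.2.1 _ (List.getElem_mem hh)
  · rw [List.getD_eq_default _ _ (by omega)]
    exact h.1

/-- the semigroup given by a table -/
def tableSg (n : ℕ) (l : List ℕ) (h : IsTable n l) : FinSg where
  carrier := Fin n
  sg := { mul := fun a b => ⟨tmul n l a b, tmul_lt h a b⟩
          mul_assoc := fun a b c => Fin.ext (h.2.2.2 a a.2 b b.2 c c.2) }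
  fin := inferInstance
  ne := ⟨⟨0, h.1⟩⟩

/-- A class is decidable: membership is decided from the multiplication table. -/
def DecClass (C : Set FinSg) : Prop :=
  ComputablePred fun x : ℕ × List ℕ => ∃ h : IsTable x.1 x.2, tableSg x.1 x.2 h ∈ C

section
/-- positive powers: `npw x k = x ^ (k + 1)` -/
def npw {M : Type} [Semigroup M] (x : M) : ℕ → M
  | 0 => x
  | k + 1 => npw x k * x

theorem npw_comm {M : Type} [Semigroup M] (x : M) (k : ℕ) : npw x k * x = x * npw x k := by
  induction k with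
  | zero => rfl
  | succ k ih =>
    show npw x k * x * x = x * (npw x k * x)
    rw [ih, mul_assoc, ih]

theorem npw_add {M : Type} [Semigroup M] (x : M) (a b : ℕ) :
    npw x a * npw x b = npw x (a + b + 1) := by
  induction b with
  | zero => rfl
  | succ b ih =>
    show npw x a * (npw x b * x) = npw x (a + b + 1) * x
    rw [← mul_assoc, ih]

theorem map_npw {M N : Type} [Semigroup M] [Semigroup N] (f : M →ₙ* N) (x : M) (k : ℕ) :
    f (npw x k) = npw (f x) k := by
  induction k with
  | zero => rfl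
  | succ k ih =>
    show f (npw x k * x) = npw (f x) k * f x
    rw [map_mul, ih]

theorem npw_periodic {M : Type} [Semigroup M] {x : M} {i d : ℕ} (h : npw x i = npw x (i + d)) :
    ∀ (m r : ℕ), i ≤ m → npw x (m + r * d) = npw x m := by
  have h1 : ∀ m, i ≤ m → npw x (m + d) = npw x m := by
    intro m hm
    obtain ⟨j, rfl⟩ := Nat.exists_eq_add_of_le hm
    induction j with
    | zero => exact h.symm
    | succ j ih =>
      have := ih (by omega)
      show npw x (i + (j + 1) + d) = npw x (i + (j + 1))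
      have e1 : i + (j + 1) + d = (i + j + d) + 1 := by ring
      rw [e1]
      show npw x (i + j + d) * x = npw x (i + j) * x
      rw [this]
  intro m r hm
  induction r with
  | zero => simp
  | succ r ih =>
    have e1 : m + (r + 1) * d = (m + r * d) + d := by ring
    rw [e1, h1 _ (by omega), ih]

/-- in a semigroup with at most `t` elements the `t!`-th powers are idempotent -/
theorem npw_idem {T : Type} [Semigroup T] [Finite T] {t : ℕ} (ht : Nat.card T ≤ t) (x : T) :
    npw x (t.factorial - 1) * npw x (t.factorial - 1) = npw x (t.factorial - 1) := by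
  classical
  have := Fintype.ofFinite T
  have hlt : Fintype.card T < Fintype.card (Fin (t + 1)) := by
    rw [Fintype.card_fin, ← Nat.card_eq_fintype_card]; omega
  obtain ⟨a, b, hab, he⟩ := Fintype.exists_ne_map_eq_of_card_lt (fun i : Fin (t + 1) => npw x i) hlt
  have key : ∀ a b : ℕ, a < b → b ≤ t → npw x a = npw x b →
      npw x (t.factorial - 1) * npw x (t.factorial - 1) = npw x (t.factorial - 1) := by
    intro a b hlt2 hb he
    obtain ⟨d, hd⟩ := Nat.exists_eq_add_of_lt hlt2
    have hp := npw_periodic (x := x) (i := a) (d := d + 1) (by rw [he, hd]; rfl)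
    have hdt : d + 1 ∣ t.factorial := Nat.dvd_factorial (by omega) (by omega)
    obtain ⟨r, hr⟩ := hdt
    have hfac : t ≤ t.factorial := Nat.self_le_factorial t
    rw [npw_add]
    have e1 : t.factorial - 1 + (t.factorial - 1) + 1 = (t.factorial - 1) + r * (d + 1) := by
      have := Nat.factorial_pos t
      rw [mul_comm r, ← hr]; omega
    rw [e1]
    exact hp _ _ (by omega)
  have hne : (a : ℕ) ≠ b := fun h => hab (Fin.ext h)
  have ha := a.2
  have hb := b.2
  rcases Nat.lt_or_gt_of_ne hne with h1 | h1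
  · exact key a b h1 (by omega) he
  · exact key b a h1 (by omega) he.symm

theorem exists_idem_npw {T : Type} [Semigroup T] [Finite T] (x : T) :
    ∃ k, npw x k * npw x k = npw x k := ⟨_, npw_idem le_rfl x⟩

/-- elementwise form of 0-simplicity, `z` is the zero -/
def ZS {S : Type} [Semigroup S] (z : S) : Prop :=
  (∀ x, z * x = z ∧ x * z = z) ∧ (∃ x y : S, x * y ≠ z) ∧ ∀ a, a ≠ z → ∀ b, ∃ x y, x * a * y = b

theorem zs_of_zeroSimple {S : Type} [Semigroup S] (h : ZeroSimple S) : ∃ z : S, ZS z := by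
  obtain ⟨z, hz, ⟨p, q, hpq⟩, hI⟩ := h
  refine ⟨z, hz, ⟨p, q, hpq⟩, ?_⟩
  have hsq : ∀ x : S, ∃ a b, a * b = x := by
    have := hI {x | ∃ a b, a * b = x} ⟨p * q, p, q, rfl⟩ (by
      rintro a ⟨c, d, rfl⟩ x
      exact ⟨⟨x, c * d, rfl⟩, ⟨c * d, x, rfl⟩⟩)
    rcases this with h | h
    · exact absurd (h.subset ⟨p, q, rfl⟩ : p * q ∈ ({z} : Set S)) hpq
    · intro x
      exact h.symm.subset (Set.mem_univ x)
  intro a ha
  have h1 := hI {x | ∃ p q, p * a * q = x} ⟨a * a * a, a, a, rfl⟩ (by
    rintro b ⟨p, q, rfl⟩ x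
    refine ⟨⟨x * p, q, by simp [mul_assoc]⟩, ⟨p, q * x, by simp [mul_assoc]⟩⟩)
  rcases h1 with h | h
  · exfalso
    have hN := hI {b | ∀ p q, p * b * q = z} ⟨a, fun p q => h.subset ⟨p, q, rfl⟩⟩ (by
      intro b hb x
      constructor
      · intro p q
        have := hb (p * x) q
        simpa [mul_assoc] using this
      · intro p q
        have := hb p (x * q)
        simpa [mul_assoc] using this)
    rcases hN with h2 | h2
    · exact ha (h2.subset (fun p q => h.subset ⟨p, q, rfl⟩ : a ∈ {b | ∀ p q, p * b * q = z}))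
    · obtain ⟨c, d, hcd⟩ := hsq p
      have := (h2.symm.subset (Set.mem_univ d) : d ∈ {b | ∀ p q, p * b * q = z}) c q
      rw [hcd] at this
      exact hpq this
  · intro b
    exact h.symm.subset (Set.mem_univ b)

theorem zeroSimple_of_zs {S : Type} [Semigroup S] {z : S} (h : ZS z) : ZeroSimple S := by
  refine ⟨z, h.1, h.2.1, ?_⟩
  intro I hne hI
  by_cases h1 : ∃ a ∈ I, a ≠ z
  · obtain ⟨a, ha, haz⟩ := h1
    right
    ext b
    simp only [Set.mem_univ, iff_true]
    obtain ⟨x, y, rfl⟩ := h.2.2 a haz b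
    exact (hI _ (hI a ha x).1 y).2
  · left
    push Not at h1
    ext b
    simp only [Set.mem_singleton_iff]
    constructor
    · exact h1 b
    · rintro rfl
      obtain ⟨a, ha⟩ := hne
      rwa [← h1 a ha]

section facts
variable {S : Type} [Semigroup S] {z : S}

theorem ZS.mul_right_ne (h : ZS z) {a b : S} (hab : a * b ≠ z) : b ≠ z :=
  fun hb => hab (by rw [hb]; exact (h.1 a).2)

theorem ZS.mul_left_ne (h : ZS z) {a b : S} (hab : a * b ≠ z) : a ≠ z :=
  fun ha => hab (by rw [ha]; exact (h.1 b).1)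

theorem ZS.right_inv [Finite S] (h : ZS z) {a b : S} (hab : a * b ≠ z) : ∃ c, a * b * c = a := by
  obtain ⟨x, y, hxy⟩ := h.2.2 (a * b) hab a
  have key : ∀ k, npw x k * a * npw (b * y) k = a := by
    intro k
    induction k with
    | zero => show x * a * (b * y) = a; simpa [mul_assoc] using hxy
    | succ k ih =>
      show npw x k * x * a * (npw (b * y) k * (b * y)) = a
      have : npw x k * x * a * (npw (b * y) k * (b * y)) =
          x * (npw x k * a * npw (b * y) k) * (b * y) := by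
        rw [npw_comm x k]; simp only [mul_assoc]
      rw [this, ih]; simpa [mul_assoc] using hxy
  obtain ⟨k, hk⟩ := exists_idem_npw (b * y)
  have h1 : a * npw (b * y) k = a := by
    have h2 := key k
    calc a * npw (b * y) k = npw x k * a * npw (b * y) k * npw (b * y) k := by rw [h2]
      _ = npw x k * a * npw (b * y) k := by rw [mul_assoc (npw x k * a), hk]
      _ = a := h2
  have h3 : npw (b * y) k = b * y * npw (b * y) (k + k) := by
    rw [← hk, npw_add, ← npw_comm]
    rfl
  refine ⟨y * npw (b * y) (k + k), ?_⟩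
  rw [h3] at h1
  simpa [mul_assoc] using h1

theorem ZS.left_inv [Finite S] (h : ZS z) {a b : S} (hab : a * b ≠ z) : ∃ c, c * (a * b) = b := by
  obtain ⟨x, y, hxy⟩ := h.2.2 (a * b) hab b
  have key : ∀ k, npw (x * a) k * b * npw y k = b := by
    intro k
    induction k with
    | zero => show x * a * b * y = b; simpa [mul_assoc] using hxy
    | succ k ih =>
      show npw (x * a) k * (x * a) * b * (npw y k * y) = b
      have : npw (x * a) k * (x * a) * b * (npw y k * y) =
          (x * a) * (npw (x * a) k * b * npw y k) * y := by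
        rw [npw_comm (x * a) k]; simp only [mul_assoc]
      rw [this, ih]; simpa [mul_assoc] using hxy
  obtain ⟨k, hk⟩ := exists_idem_npw (x * a)
  have h1 : npw (x * a) k * b = b := by
    have h2 := key k
    calc npw (x * a) k * b = npw (x * a) k * (npw (x * a) k * b * npw y k) := by rw [h2]
      _ = (npw (x * a) k * npw (x * a) k) * b * npw y k := by simp only [mul_assoc]
      _ = b := by rw [hk, h2]
  have h3 : npw (x * a) k = npw (x * a) (k + k) * (x * a) := by
    rw [← hk, npw_add]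
    rfl
  refine ⟨npw (x * a) (k + k) * x, ?_⟩
  rw [h3] at h1
  simpa [mul_assoc] using h1

/-- categorical at zero -/
theorem ZS.cat [Finite S] (h : ZS z) {a b c : S} (hab : a * b ≠ z) (hbc : b * c ≠ z) :
    a * b * c ≠ z := by
  obtain ⟨d, hd⟩ := h.right_inv hbc
  intro h0
  apply hab
  rw [← hd, ← mul_assoc, ← mul_assoc, h0]
  exact (h.1 d).1

/-- closed walks have idempotent powers acting as right identities -/
theorem ZS.pump [Finite S] (h : ZS z) {a b : S} (hab : a * b ≠ z) (hb : b = a ∨ ∃ y, b = y * a)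
    {k : ℕ} (hk : npw b k * npw b k = npw b k) : a * npw b k = a := by
  have hbb : b * b ≠ z := by
    rcases hb with rfl | ⟨y, rfl⟩
    · exact hab
    · have h1 : y * a ≠ z := h.mul_right_ne hab
      have := h.cat h1 hab
      simpa [mul_assoc] using this
  have hpow : ∀ k, npw b k ≠ z := by
    intro k
    induction k with
    | zero => exact h.mul_left_ne hbb
    | succ k ih =>
      cases k with
      | zero => exact hbb
      | succ k => exact h.cat ih hbb
  have h1 : ∃ y, npw b k = y * a := by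
    have h2 : npw b k = npw b (k + k) * b := by rw [← hk, npw_add]; rfl
    rcases hb with hb | ⟨y, hy⟩
    · exact ⟨npw b (k + k), by rw [← hb]; exact h2⟩
    · exact ⟨npw b (k + k) * y, by rw [mul_assoc, ← hy]; exact h2⟩
  obtain ⟨y, hy⟩ := h1
  have h2 : y * a ≠ z := by rw [← hy]; exact hpow k
  obtain ⟨d, hd⟩ := h.left_inv h2
  calc a * npw b k = d * (y * a) * npw b k := by rw [hd]
    _ = d * (npw b k * npw b k) := by rw [← hy, mul_assoc]
    _ = a := by rw [hk, hy, hd]

end facts

end

section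
/-- Rees matrix semigroup with zero over a group `G` with sandwich matrix `P` -/
def RM (G I L : Type) (_P : L → I → Option G) : Type := Option (I × G × L)

def RM.mul' {G I L : Type} [Group G] {P : L → I → Option G} :
    RM G I L P → RM G I L P → RM G I L P
  | some (i, g, l), some (j, h, m) => (P l j).map (fun p => (i, g * p * h, m))
  | _, _ => none

instance RM.semigroup {G I L : Type} [Group G] {P : L → I → Option G} :
    Semigroup (RM G I L P) where
  mul := RM.mul'
  mul_assoc a b c := by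
    show RM.mul' (RM.mul' a b) c = RM.mul' a (RM.mul' b c)
    rcases a with _ | ⟨i, g, l⟩
    · rfl
    rcases b with _ | ⟨j, h, m⟩
    · rfl
    rcases c with _ | ⟨k, r, q⟩
    · show RM.mul' (RM.mul' _ _) none = none
      cases h1 : RM.mul' (P := P) (some (i, g, l)) (some (j, h, m)) <;> rfl
    show RM.mul' ((P l j).map _) _ = RM.mul' _ ((P m k).map _)
    cases h1 : P l j <;> cases h2 : P m k
    · rfl
    · show none = RM.mul' (P := P) (some (i, g, l)) (some (j, _, q))
      simp [RM.mul', h1]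
    · show RM.mul' (P := P) (some (i, _, m)) (some (k, r, q)) = none
      simp [RM.mul', h2]
    · show RM.mul' (P := P) (some (i, _, m)) (some (k, r, q)) =
        RM.mul' (P := P) (some (i, g, l)) (some (j, _, q))
      simp [RM.mul', h1, h2, mul_assoc]

instance {G I L : Type} {P : L → I → Option G} [Finite G] [Finite I] [Finite L] :
    Finite (RM G I L P) := by unfold RM; infer_instance

theorem RM.card {G I L : Type} {P : L → I → Option G} [Finite G] [Finite I] [Finite L] :
    Nat.card (RM G I L P) = Nat.card I * (Nat.card G * Nat.card L) + 1 := by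
  have := Fintype.ofFinite I
  have := Fintype.ofFinite G
  have := Fintype.ofFinite L
  unfold RM
  simp [Nat.card_eq_fintype_card]

def RM.el {G I L : Type} (P : L → I → Option G) (i : I) (g : G) (l : L) : RM G I L P :=
  some (i, g, l)

def RM.zero {G I L : Type} (P : L → I → Option G) : RM G I L P := none

theorem RM.el_mul_el {G I L : Type} [Group G] {P : L → I → Option G} {i j : I} {g h : G}
    {l m : L} {p : G} (hp : P l j = some p) :
    RM.el P i g l * RM.el P j h m = RM.el P i (g * p * h) m := by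
  show (P l j).map _ = _
  rw [hp]; rfl

theorem RM.el_mul_el_none {G I L : Type} [Group G] {P : L → I → Option G} {i j : I} {g h : G}
    {l m : L} (hp : P l j = none) :
    RM.el P i g l * RM.el P j h m = RM.zero P := by
  show (P l j).map _ = _
  rw [hp]; rfl

theorem RM.zero_mul' {G I L : Type} [Group G] {P : L → I → Option G} (x : RM G I L P) :
    RM.zero P * x = RM.zero P := rfl

theorem RM.mul_zero' {G I L : Type} [Group G] {P : L → I → Option G} (x : RM G I L P) :
    x * RM.zero P = RM.zero P := by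
  rcases x with _ | ⟨i, g, l⟩ <;> rfl

theorem RM.cases' {G I L : Type} {P : L → I → Option G} (x : RM G I L P) :
    x = RM.zero P ∨ ∃ i g l, x = RM.el P i g l := by
  rcases x with _ | ⟨i, g, l⟩
  · exact Or.inl rfl
  · exact Or.inr ⟨i, g, l, rfl⟩

theorem RM.zs {G I L : Type} [Group G] [Nonempty I] {P : L → I → Option G}
    (h1 : ∀ i, ∃ l p, P l i = some p) (h2 : ∀ l, ∃ i p, P l i = some p) :
    ZS (RM.zero P : RM G I L P) := by
  refine ⟨fun x => ⟨RM.zero_mul' x, RM.mul_zero' x⟩, ?_, ?_⟩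
  · obtain ⟨i⟩ := ‹Nonempty I›
    obtain ⟨l, p, hp⟩ := h1 i
    refine ⟨RM.el P i 1 l, RM.el P i 1 l, ?_⟩
    rw [RM.el_mul_el hp]
    exact fun h => Option.some_ne_none _ h
  · intro a ha b
    rcases RM.cases' a with rfl | ⟨i, g, l, rfl⟩
    · exact absurd rfl ha
    rcases RM.cases' b with rfl | ⟨j, h, m, rfl⟩
    · exact ⟨RM.zero P, RM.zero P, by rw [RM.zero_mul', RM.zero_mul']⟩
    obtain ⟨l', p, hp⟩ := h1 i
    obtain ⟨i', q, hq⟩ := h2 l
    refine ⟨RM.el P j 1 l', RM.el P i' ((p * g * q)⁻¹ * h) m, ?_⟩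
    rw [RM.el_mul_el hp, RM.el_mul_el hq]
    congr 1
    group

end

section
/-- R-relation (for nonzero elements of a finite 0-simple semigroup) -/
def RR {S : Type} [Semigroup S] (u v : S) : Prop := (∃ c, u * c = v) ∧ ∃ c, v * c = u

/-- L-relation -/
def LL {S : Type} [Semigroup S] (u v : S) : Prop := (∃ c, c * u = v) ∧ ∃ c, c * v = u

section
variable {S : Type} [Semigroup S]

theorem RR.symm {u v : S} (h : RR u v) : RR v u := ⟨h.2, h.1⟩
theorem LL.symm {u v : S} (h : LL u v) : LL v u := ⟨h.2, h.1⟩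
theorem RR.trans {u v w : S} (h : RR u v) (h' : RR v w) : RR u w := by
  obtain ⟨⟨c, rfl⟩, d, hd⟩ := h
  obtain ⟨⟨c', rfl⟩, d', hd'⟩ := h'
  exact ⟨⟨c * c', by rw [mul_assoc]⟩, ⟨d' * d, by rw [← mul_assoc, hd', hd]⟩⟩
theorem LL.trans {u v w : S} (h : LL u v) (h' : LL v w) : LL u w := by
  obtain ⟨⟨c, rfl⟩, d, hd⟩ := h
  obtain ⟨⟨c', rfl⟩, d', hd'⟩ := h'
  exact ⟨⟨c' * c, by rw [mul_assoc]⟩, ⟨d * d', by rw [mul_assoc, hd', hd]⟩⟩

variable {z : S}

theorem ZS.rr_mul [Finite S] (h : ZS z) {a b : S} (hab : a * b ≠ z) : RR (a * b) a :=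
  ⟨h.right_inv hab, b, rfl⟩

theorem ZS.ll_mul [Finite S] (h : ZS z) {a b : S} (hab : a * b ≠ z) : LL (a * b) b :=
  ⟨h.left_inv hab, a, rfl⟩

theorem ZS.rr_ne (h : ZS z) {u v : S} (huv : RR u v) (hv : v ≠ z) : u ≠ z := by
  rintro rfl
  obtain ⟨⟨c, hc⟩, -⟩ := huv
  exact hv (by rw [← hc]; exact (h.1 c).1)

theorem ZS.ll_ne (h : ZS z) {u v : S} (huv : LL u v) (hv : v ≠ z) : u ≠ z := by
  rintro rfl
  obtain ⟨⟨c, hc⟩, -⟩ := huv
  exact hv (by rw [← hc]; exact (h.1 c).2)

/-- whether `b * a` is zero depends on the R-class of `a` -/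
theorem ZS.ne_of_rr (h : ZS z) {a a' b : S} (haa : RR a a') (hab : b * a ≠ z) : b * a' ≠ z := by
  obtain ⟨-, ⟨c, rfl⟩⟩ := haa
  rw [← mul_assoc] at hab
  exact h.mul_left_ne hab

theorem ZS.ne_of_ll (h : ZS z) {a b b' : S} (hbb : LL b b') (hab : b * a ≠ z) : b' * a ≠ z := by
  obtain ⟨-, ⟨c, rfl⟩⟩ := hbb
  rw [mul_assoc] at hab
  exact h.mul_right_ne hab

theorem ZS.exists_right (h : ZS z) {a : S} (ha : a ≠ z) : ∃ b, a * b ≠ z := by
  obtain ⟨x, y, hxy⟩ := h.2.2 a ha a
  refine ⟨y, fun h0 => ha ?_⟩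
  rw [← hxy, mul_assoc, h0]; exact (h.1 x).2

theorem ZS.exists_left (h : ZS z) {a : S} (ha : a ≠ z) : ∃ b, b * a ≠ z := by
  obtain ⟨x, y, hxy⟩ := h.2.2 a ha a
  refine ⟨x, fun h0 => ha ?_⟩
  rw [← hxy, h0]; exact (h.1 y).1

theorem ZS.rr_refl [Finite S] (h : ZS z) {a : S} (ha : a ≠ z) : RR a a := by
  obtain ⟨b, hb⟩ := h.exists_right ha
  exact (h.rr_mul hb).symm.trans (h.rr_mul hb)

theorem ZS.ll_refl [Finite S] (h : ZS z) {a : S} (ha : a ≠ z) : LL a a := by
  obtain ⟨b, hb⟩ := h.exists_left ha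
  exact (h.ll_mul hb).symm.trans (h.ll_mul hb)

/-- any R-class meets any L-class -/
theorem ZS.meet [Finite S] (h : ZS z) {v b : S} (hv : v ≠ z) (hb : b ≠ z) :
    ∃ x, x ≠ z ∧ RR x v ∧ LL x b := by
  obtain ⟨p, q, hpq⟩ := h.2.2 v hv b
  have h1 : p * (v * q) ≠ z := by rw [← mul_assoc, hpq]; exact hb
  have h2 : v * q ≠ z := h.mul_right_ne h1
  refine ⟨v * q, h2, h.rr_mul h2, ?_⟩
  have := (h.ll_mul h1).symm
  rwa [← mul_assoc, hpq] at this

/-- the subsemigroup of elements whose R-class is met by `α` and whose L-class is met by `β` -/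
def sub [Finite S] (h : ZS z) {A B : Type} (α : A → S) (β : B → S) : Subsemigroup S where
  carrier := {u | u = z ∨ (u ≠ z ∧ (∃ p, RR u (α p)) ∧ ∃ q, LL u (β q))}
  mul_mem' := by
    intro u v hu hv
    by_cases huv : u * v = z
    · exact Or.inl huv
    right
    rcases hu with rfl | ⟨hu, ⟨p, hp⟩, -⟩
    · exact absurd (h.1 v).1 huv
    rcases hv with rfl | ⟨hv, -, q, hq⟩
    · exact absurd (h.1 u).2 huv
    exact ⟨huv, ⟨p, (h.rr_mul huv).trans hp⟩, ⟨q, (h.ll_mul huv).trans hq⟩⟩

theorem sub_zs [Finite S] (h : ZS z) {A B : Type} [Nonempty A] (α : A → S) (β : B → S)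
    (hα : ∀ p, α p ≠ z) (hβ : ∀ q, β q ≠ z)
    (h1 : ∀ p, ∃ q, β q * α p ≠ z) (h2 : ∀ q, ∃ p, β q * α p ≠ z) :
    ZS (⟨z, Or.inl rfl⟩ : sub h α β) := by
  have key : ∀ a : sub h α β, a ≠ ⟨z, Or.inl rfl⟩ → ∀ b : sub h α β, ∃ x y, x * a * y = b := by
    rintro ⟨u, hu⟩ hne ⟨v, hv⟩
    rcases hu with rfl | ⟨hu, ⟨p, hp⟩, q, hq⟩
    · exact absurd rfl hne
    rcases hv with rfl | ⟨hv, ⟨p', hp'⟩, q', hq'⟩
    · refine ⟨⟨v, Or.inl rfl⟩, ⟨v, Or.inl rfl⟩, Subtype.ext ?_⟩
      show v * u * v = v
      rw [(h.1 u).1, (h.1 v).1]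
    obtain ⟨q1, hq1⟩ := h1 p
    have hb1 : β q1 * u ≠ z := h.ne_of_rr hp.symm hq1
    obtain ⟨x, hx, hx1, hx2⟩ := h.meet hv (hβ q1)
    have hxu : x * u ≠ z := h.ne_of_ll hx2.symm hb1
    have hxv : RR (x * u) v := (h.rr_mul hxu).trans hx1
    obtain ⟨⟨c, hc⟩, -⟩ := hxv
    obtain ⟨p1, hp1⟩ := h2 q
    have hua : u * α p1 ≠ z := h.ne_of_ll hq.symm hp1
    obtain ⟨c0, hc0⟩ := h.right_inv hua
    have hv2 : x * u * (α p1 * (c0 * c)) = v := by
      rw [← hc]
      calc x * u * (α p1 * (c0 * c)) = x * (u * α p1 * c0) * c := by simp only [mul_assoc]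
        _ = x * u * c := by rw [hc0]
    have hy : α p1 * (c0 * c) ≠ z := h.mul_right_ne (a := x * u) (by rw [hv2]; exact hv)
    refine ⟨⟨x, Or.inr ⟨hx, ⟨p', hx1.trans hp'⟩, ⟨q1, hx2⟩⟩⟩,
      ⟨α p1 * (c0 * c), Or.inr ⟨hy, ⟨p1, h.rr_mul hy⟩, ⟨q', ?_⟩⟩⟩, Subtype.ext hv2⟩
    have h3 : x * u * (α p1 * (c0 * c)) ≠ z := by rw [hv2]; exact hv
    have h4 := (h.ll_mul h3).symm
    rw [hv2] at h4
    exact h4.trans hq'
  refine ⟨?_, ?_, key⟩
  · rintro ⟨x, hx⟩
    exact ⟨Subtype.ext (h.1 x).1, Subtype.ext (h.1 x).2⟩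
  · obtain ⟨p⟩ := ‹Nonempty A›
    obtain ⟨q, hq⟩ := h1 p
    obtain ⟨x, hx, hx1, hx2⟩ := h.meet (hα p) (hβ q)
    refine ⟨⟨x, Or.inr ⟨hx, ⟨p, hx1⟩, ⟨q, hx2⟩⟩⟩, ⟨x, Or.inr ⟨hx, ⟨p, hx1⟩, ⟨q, hx2⟩⟩⟩, ?_⟩
    intro h0
    have h3 : x * x = z := congrArg Subtype.val h0
    exact h.ne_of_ll hx2.symm (h.ne_of_rr hx1.symm hq) h3

end

end

section
open Function

/-- coordinatewise change of a tuple -/
theorem change_all {ι : Type} [Fintype ι] [DecidableEq ι] {X : ι → Type} {Y : Type}
    (F : (∀ i, X i) → Y) (r : ∀ i, X i → X i → Prop) (P : (∀ i, X i) → Prop)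
    (h : ∀ w, P w → ∀ i a, r i (w i) a → F w = F (update w i a) ∧ P (update w i a))
    (w w' : ∀ i, X i) (hw : P w) (hww : ∀ i, r i (w i) (w' i)) : F w = F w' := by
  have key : ∀ s : Finset ι, F w = F (s.piecewise w' w) ∧ P (s.piecewise w' w) := by
    intro s
    induction s using Finset.induction with
    | empty => simp [hw]
    | insert i s hi ih =>
      rw [Finset.piecewise_insert]
      have h1 := h _ ih.2 i (w' i) (by
        rw [Finset.piecewise_eq_of_notMem _ _ _ hi]; exact hww i)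
      exact ⟨ih.1.trans h1.1, h1.2⟩
  have := (key Finset.univ).1
  rwa [Finset.piecewise_univ] at this

section sub
variable {S : Type} [Semigroup S] {z : S} [Finite S]

theorem sub_rr (h : ZS z) {A B : Type} [Nonempty A] (α : A → S) (β : B → S)
    (hα : ∀ p, α p ≠ z) (hβ : ∀ q, β q ≠ z)
    (h1 : ∀ p, ∃ q, β q * α p ≠ z) (h2 : ∀ q, ∃ p, β q * α p ≠ z)
    {u v : sub h α β} (hu : u.1 ≠ z) (hv : v.1 ≠ z) (huv : RR u.1 v.1) : RR u v := by
  have key : ∀ {u v : sub h α β}, u.1 ≠ z → v.1 ≠ z → RR u.1 v.1 → ∃ c, u * c = v := by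
    intro u v hu hv huv
    have hz := sub_zs h α β hα hβ h1 h2
    have hu' : u ≠ ⟨z, Or.inl rfl⟩ := fun h0 => hu (congrArg Subtype.val h0)
    obtain ⟨a, ha⟩ := hz.exists_right hu'
    obtain ⟨q, hq⟩ := hz.right_inv ha
    obtain ⟨⟨c, hc⟩, -⟩ := huv
    have hq' : u.1 * a.1 * q.1 = u.1 := congrArg Subtype.val hq
    have h3 : u.1 * (a.1 * (q.1 * c)) = v.1 := by
      rw [← hc]
      calc u.1 * (a.1 * (q.1 * c)) = u.1 * a.1 * q.1 * c := by simp only [mul_assoc]
        _ = u.1 * c := by rw [hq']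
    have h4 : u.1 * (a.1 * (q.1 * c)) ≠ z := by rw [h3]; exact hv
    have h5 : a.1 * (q.1 * c) ≠ z := h.mul_right_ne h4
    have ha0 : a.1 ≠ z := h.mul_left_ne h5
    rcases a.2 with h6 | ⟨-, ⟨p, hp⟩, -⟩
    · exact absurd h6 ha0
    rcases v.2 with h6 | ⟨-, -, ⟨q', hq'⟩⟩
    · exact absurd h6 hv
    refine ⟨⟨a.1 * (q.1 * c), Or.inr ⟨h5, ⟨p, (h.rr_mul h5).trans hp⟩, ⟨q', ?_⟩⟩⟩,
      Subtype.ext h3⟩
    have := (h.ll_mul h4).symm
    rw [h3] at this
    exact this.trans hq'
  exact ⟨key hu hv huv, key hv hu huv.symm⟩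

theorem sub_ll (h : ZS z) {A B : Type} [Nonempty A] (α : A → S) (β : B → S)
    (hα : ∀ p, α p ≠ z) (hβ : ∀ q, β q ≠ z)
    (h1 : ∀ p, ∃ q, β q * α p ≠ z) (h2 : ∀ q, ∃ p, β q * α p ≠ z)
    {u v : sub h α β} (hu : u.1 ≠ z) (hv : v.1 ≠ z) (huv : LL u.1 v.1) : LL u v := by
  have key : ∀ {u v : sub h α β}, u.1 ≠ z → v.1 ≠ z → LL u.1 v.1 → ∃ c, c * u = v := by
    intro u v hu hv huv
    have hz := sub_zs h α β hα hβ h1 h2
    have hu' : u ≠ ⟨z, Or.inl rfl⟩ := fun h0 => hu (congrArg Subtype.val h0)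
    obtain ⟨a, ha⟩ := hz.exists_left hu'
    obtain ⟨q, hq⟩ := hz.left_inv ha
    obtain ⟨⟨c, hc⟩, -⟩ := huv
    have hq' : q.1 * (a.1 * u.1) = u.1 := congrArg Subtype.val hq
    have h3 : (c * q.1 * a.1) * u.1 = v.1 := by
      rw [← hc]
      calc (c * q.1 * a.1) * u.1 = c * (q.1 * (a.1 * u.1)) := by simp only [mul_assoc]
        _ = c * u.1 := by rw [hq']
    have h4 : (c * q.1 * a.1) * u.1 ≠ z := by rw [h3]; exact hv
    have h5 : c * q.1 * a.1 ≠ z := h.mul_left_ne h4
    have ha0 : a.1 ≠ z := h.mul_right_ne h5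
    rcases a.2 with h6 | ⟨-, -, ⟨p, hp⟩⟩
    · exact absurd h6 ha0
    rcases v.2 with h6 | ⟨-, ⟨q', hq'⟩, -⟩
    · exact absurd h6 hv
    refine ⟨⟨c * q.1 * a.1, Or.inr ⟨h5, ⟨q', ?_⟩, ⟨p, (h.ll_mul h5).trans hp⟩⟩⟩,
      Subtype.ext h3⟩
    have := (h.rr_mul h4).symm
    rw [h3] at this
    exact this.trans hq'
  exact ⟨key hu hv huv, key hv hu huv.symm⟩

end sub

section quot
variable {ι : Type} [Fintype ι] [DecidableEq ι] {C : ι → Type} [∀ i, Semigroup (C i)]
  [∀ i, Finite (C i)] {S : Type} [Semigroup S] (f : (∀ i, C i) →ₙ* S) {z : ∀ i, C i}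

theorem ZS.exists_mul {T : Type} [Semigroup T] [Finite T] {z : T} (h : ZS z) (x : T) :
    ∃ p q, p * q = x := by
  by_cases hx : x = z
  · exact ⟨z, z, by rw [hx]; exact (h.1 z).1⟩
  · obtain ⟨⟨c, hc⟩, -⟩ := h.rr_refl hx
    exact ⟨x, c, hc⟩

/-- the congruence in coordinate `i` -/
def th (hz : ∀ i, ZS (z i)) (i : ι) : Con (C i) where
  r u v := (u = z i ∧ v = z i) ∨ (u ≠ z i ∧ v ≠ z i ∧ RR u v ∧ LL u v ∧
    ∀ w, f (update w i u) = f (update w i v))
  iseqv := by
    refine ⟨?_, ?_, ?_⟩
    · intro u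
      by_cases hu : u = z i
      · exact Or.inl ⟨hu, hu⟩
      · exact Or.inr ⟨hu, hu, (hz i).rr_refl hu, (hz i).ll_refl hu, fun _ => rfl⟩
    · rintro u v (⟨h1, h2⟩ | ⟨h1, h2, h3, h4, h5⟩)
      · exact Or.inl ⟨h2, h1⟩
      · exact Or.inr ⟨h2, h1, h3.symm, h4.symm, fun w => (h5 w).symm⟩
    · rintro u v w (⟨h1, h2⟩ | ⟨h1, h2, h3, h4, h5⟩) (⟨g1, g2⟩ | ⟨g1, g2, g3, g4, g5⟩)
      · exact Or.inl ⟨h1, g2⟩
      · exact absurd h2 g1
      · exact absurd g1 h2
      · exact Or.inr ⟨h1, g2, h3.trans g3, h4.trans g4, fun w => (h5 w).trans (g5 w)⟩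
  mul' := by
    rintro a b c d (⟨h1, h2⟩ | ⟨h1, h2, h3, h4, h5⟩) (⟨g1, g2⟩ | ⟨g1, g2, g3, g4, g5⟩)
    · left; rw [h1, h2, ((hz i).1 _).1, ((hz i).1 _).1]; exact ⟨rfl, rfl⟩
    · left; rw [h1, h2, ((hz i).1 _).1, ((hz i).1 _).1]; exact ⟨rfl, rfl⟩
    · left; rw [g1, g2, ((hz i).1 _).2, ((hz i).1 _).2]; exact ⟨rfl, rfl⟩
    · by_cases hac : a * c = z i
      · left
        refine ⟨hac, ?_⟩
        by_contra hbd
        exact (hz i).ne_of_ll h4.symm ((hz i).ne_of_rr g3.symm hbd) hac
      · right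
        have hbd : b * d ≠ z i := (hz i).ne_of_ll h4 ((hz i).ne_of_rr g3 hac)
        refine ⟨hac, hbd, ((hz i).rr_mul hac).trans (h3.trans ((hz i).rr_mul hbd).symm),
          ((hz i).ll_mul hac).trans (g4.trans ((hz i).ll_mul hbd).symm), ?_⟩
        intro w
        choose α β hαβ using fun j => (hz j).exists_mul (w j)
        have e : ∀ x y : C i, update w i (x * y) = update α i x * update β i y := by
          intro x y
          funext j
          by_cases hj : j = i
          · subst hj; simp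
          · simp [hj, hαβ]
        rw [e, e, map_mul, map_mul, h5, g5]

theorem f_congr (hz : ∀ i, ZS (z i)) (w w' : ∀ i, C i) (h : ∀ i, th f hz i (w i) (w' i)) :
    f w = f w' := by
  refine change_all f (fun i => th f hz i) (fun _ => True) ?_ w w' trivial h
  intro w _ i a hr
  refine ⟨?_, trivial⟩
  rcases hr with ⟨h1, h2⟩ | ⟨h1, h2, h3, h4, h5⟩
  · rw [h2, ← h1, update_eq_self]
  · have := h5 w
    rwa [update_eq_self] at this

/-- the induced map -/
noncomputable def fq (hz : ∀ i, ZS (z i)) : (∀ i, (th f hz i).Quotient) →ₙ* S where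
  toFun q := f fun i => (q i).out
  map_mul' q q' := by
    rw [← map_mul]
    apply f_congr f hz
    intro i
    apply (th f hz i).eq.1
    rw [Pi.mul_apply, Pi.mul_apply, Con.coe_mul]
    rw [show (((q i * q' i).out : C i) : (th f hz i).Quotient) = q i * q' i from
      Quotient.out_eq _, show (((q i).out : C i) : (th f hz i).Quotient) = q i from
      Quotient.out_eq _, show (((q' i).out : C i) : (th f hz i).Quotient) = q' i from
      Quotient.out_eq _]

theorem fq_surj (hz : ∀ i, ZS (z i)) (hf : Surjective f) : Surjective (fq f hz) := by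
  intro s
  obtain ⟨w, rfl⟩ := hf s
  refine ⟨fun i => (w i : (th f hz i).Quotient), ?_⟩
  apply f_congr f hz
  intro i
  apply (th f hz i).eq.1
  exact Quotient.out_eq _

theorem zs_quot (hz : ∀ i, ZS (z i)) (i : ι) : ZS ((z i : C i) : (th f hz i).Quotient) := by
  have hne : ∀ u : C i, (u : (th f hz i).Quotient) = ((z i : C i) : (th f hz i).Quotient) →
      u = z i := by
    intro u hu
    rcases (th f hz i).eq.1 hu with ⟨h1, -⟩ | ⟨-, h2, -⟩
    · exact h1
    · exact absurd rfl h2
  refine ⟨?_, ?_, ?_⟩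
  · intro x
    induction x using Con.induction_on with
    | H x =>
      rw [← Con.coe_mul, ← Con.coe_mul, ((hz i).1 x).1, ((hz i).1 x).2]
      exact ⟨rfl, rfl⟩
  · obtain ⟨x, y, hxy⟩ := (hz i).2.1
    refine ⟨x, y, ?_⟩
    rw [← Con.coe_mul]
    exact fun h => hxy (hne _ h)
  · intro a ha b
    induction a using Con.induction_on with
    | H u =>
      induction b using Con.induction_on with
      | H v =>
        have hu : u ≠ z i := fun h => ha (by rw [h])
        obtain ⟨x, y, hxy⟩ := (hz i).2.2 u hu v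
        exact ⟨x, y, by rw [← Con.coe_mul, ← Con.coe_mul, hxy]⟩

theorem card_quot [Finite S] (hz : ∀ i, ZS (z i)) (i : ι) {A B : Type} [Finite A] [Finite B]
    (ra : C i → A) (lb : C i → B)
    (hra : ∀ u v, u ≠ z i → v ≠ z i → ra u = ra v → RR u v)
    (hlb : ∀ u v, u ≠ z i → v ≠ z i → lb u = lb v → LL u v) :
    Nat.card (th f hz i).Quotient ≤ Nat.card A * (Nat.card B * Nat.card S) + 1 := by
  classical
  have hex : ∀ j, ∃ e : C j, e ≠ z j := by
    intro j
    obtain ⟨x, y, hxy⟩ := (hz j).2.1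
    exact ⟨_, hxy⟩
  choose e he using hex
  let code : (th f hz i).Quotient → Option (A × B × S) := fun q =>
    if q.out = z i then none else some (ra q.out, lb q.out, f (update e i q.out))
  have hinj : Injective code := by
    intro q q' hqq
    have h1 : th f hz i q.out q'.out := by
      by_cases hq : q.out = z i
      · by_cases hq' : q'.out = z i
        · exact Or.inl ⟨hq, hq'⟩
        · simp [code, hq, hq'] at hqq
      · by_cases hq' : q'.out = z i
        · simp [code, hq, hq'] at hqq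
        · simp only [code, hq, hq', if_false, Option.some.injEq, Prod.mk.injEq] at hqq
          obtain ⟨ha, hb, hc⟩ := hqq
          generalize q.out = u at *
          generalize q'.out = v at *
          have hR := hra u v hq hq' ha
          have hL := hlb u v hq hq' hb
          refine Or.inr ⟨hq, hq', hR, hL, ?_⟩
          intro w
          -- local identities
          obtain ⟨b1, hb1⟩ := (hz i).exists_left hq
          obtain ⟨c1, hc1⟩ := (hz i).left_inv hb1
          obtain ⟨b2, hb2⟩ := (hz i).exists_right hq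
          obtain ⟨c2, hc2⟩ := (hz i).right_inv hb2
          obtain ⟨⟨r, hr⟩, -⟩ := hR
          obtain ⟨⟨l, hl⟩, -⟩ := hL
          have u1 : (c1 * b1) * u = u := by rw [mul_assoc]; exact hc1
          have u2 : u * (b2 * c2) = u := by rw [← mul_assoc]; exact hc2
          have v1 : (c1 * b1) * v = v := by rw [← hr, ← mul_assoc, u1]
          have v2 : v * (b2 * c2) = v := by rw [← hl, mul_assoc, u2]
          choose α β hαβ using fun j => (hz j).2.2 (e j) (he j) (w j)
          have e1 : ∀ x : C i, (c1 * b1) * x * (b2 * c2) = x →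
              update w i x = update α i (c1 * b1) * update e i x * update β i (b2 * c2) := by
            intro x hx
            funext j
            by_cases hj : j = i
            · subst hj; simp [hx]
            · simp [hj, hαβ]
          rw [e1 u (by rw [u1, u2]), e1 v (by rw [v1, v2]), map_mul, map_mul, map_mul, map_mul, hc]
    have h2 := (th f hz i).eq.2 h1
    have e1 : ((q.out : C i) : (th f hz i).Quotient) = q := Quotient.out_eq _
    have e2 : ((q'.out : C i) : (th f hz i).Quotient) = q' := Quotient.out_eq _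
    rw [e1, e2] at h2
    exact h2
  have h1 := Nat.card_le_card_of_injective code hinj
  have h2 : Nat.card (Option (A × B × S)) = Nat.card A * (Nat.card B * Nat.card S) + 1 := by
    have := Fintype.ofFinite A
    have := Fintype.ofFinite B
    have := Fintype.ofFinite S
    simp [Nat.card_eq_fintype_card]
  omega

end quot

end

section
open Function

/-- bound for the number of factors -/
def numK (n B : ℕ) : ℕ := 2 ^ (B + 1) * (2 ^ ((B + 1) * ((B + 1) * (B + 1))) * (B + 1) ^ n)

theorem merge {S : Type} [Semigroup S] [Finite S] {k B : ℕ} (T : Fin k → FinSg)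
    (hB : ∀ i, Nat.card (T i) ≤ B) (f : (∀ i, T i) →ₙ* S) (hf : Surjective f) :
    ∃ k' ≤ numK (Nat.card S) B, ∃ e : Fin k' → Fin k, ∃ f' : (∀ j, T (e j)) →ₙ* S,
      Surjective f' := by
  classical
  choose x hx using hf
  have hemb : ∀ i, ∃ ε : T i → Fin (B + 1), Injective ε := by
    intro i
    have h1 : Nat.card (T i) ≤ B + 1 := (hB i).trans (Nat.le_succ B)
    exact ⟨fun u => Fin.castLE h1 (Finite.equivFin (T i) u), fun u v h =>
      (Finite.equivFin (T i)).injective (Fin.castLE_injective h1 h)⟩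
  choose ε hε using hemb
  let Code := Set (Fin (B + 1)) × Set (Fin (B + 1) × Fin (B + 1) × Fin (B + 1)) ×
    (S → Fin (B + 1))
  let code : Fin k → Code := fun i => (Set.range (ε i),
    {t | ∃ u v, t = (ε i u, ε i v, ε i (u * v))}, fun s => ε i (x s i))
  have hcode : ∀ i j, code i = code j → ∃ σ : T i →ₙ* T j, ∀ s, σ (x s i) = x s j := by
    intro i j hij
    have h1 : Set.range (ε i) = Set.range (ε j) := congrArg Prod.fst hij
    have h2 : {t | ∃ u v, t = (ε i u, ε i v, ε i (u * v))} =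
      {t | ∃ u v, t = (ε j u, ε j v, ε j (u * v))} := congrArg (fun c => c.2.1) hij
    have h3 : (fun s => ε i (x s i)) = fun s => ε j (x s j) := congrArg (fun c => c.2.2) hij
    have h4 : ∀ u : T i, ∃ v : T j, ε j v = ε i u := fun u => by
      have : ε i u ∈ Set.range (ε i) := ⟨u, rfl⟩
      rw [h1] at this
      exact this
    choose σ hσ using h4
    refine ⟨⟨σ, ?_⟩, ?_⟩
    · intro u u'
      have h5 : (ε i u, ε i u', ε i (u * u')) ∈
          {t | ∃ u v, t = (ε i u, ε i v, ε i (u * v))} := ⟨u, u', rfl⟩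
      rw [h2] at h5
      obtain ⟨v, v', h6⟩ := h5
      simp only [Prod.mk.injEq] at h6
      obtain ⟨h7, h8, h9⟩ := h6
      apply hε j
      rw [hσ, h9]
      have e1 : σ u = v := hε j (by rw [hσ, h7])
      have e2 : σ u' = v' := hε j (by rw [hσ, h8])
      rw [e1, e2]
    · intro s
      apply hε j
      show ε j (σ (x s i)) = _
      rw [hσ]
      exact congrFun h3 s
  let R := Set.range code
  have hR : Nat.card R ≤ numK (Nat.card S) B := by
    have h1 : Nat.card R ≤ Nat.card Code := Nat.card_le_card_of_injective _ Subtype.val_injective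
    have := Fintype.ofFinite S
    have h2 : Nat.card Code = numK (Nat.card S) B := by
      simp [Code, numK, Nat.card_eq_fintype_card]
    omega
  let E : R ≃ Fin (Nat.card R) := Finite.equivFin R
  let e : Fin (Nat.card R) → Fin k := fun j => (E.symm j).2.choose
  have he : ∀ j, code (e j) = (E.symm j).1 := fun j => (E.symm j).2.choose_spec
  let r : Fin k → Fin (Nat.card R) := fun i => E ⟨code i, i, rfl⟩
  have her : ∀ i, code (e (r i)) = code i := by
    intro i
    rw [he]
    show (E.symm (E ⟨code i, i, rfl⟩)).1 = code i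
    rw [Equiv.symm_apply_apply]
  choose σ hσ using fun i => hcode (e (r i)) i (her i)
  refine ⟨Nat.card R, hR, e, ⟨fun w => f fun i => σ i (w (r i)), ?_⟩, ?_⟩
  · intro w w'
    rw [← map_mul]
    congr 1
    funext i
    show σ i (w (r i) * w' (r i)) = σ i (w (r i)) * σ i (w' (r i))
    rw [map_mul]
  · intro s
    refine ⟨fun j => x s (e j), ?_⟩
    show f _ = s
    rw [← hx s]
    congr 1
    funext i
    rw [hσ, hx]

/-- bound for the sizes of the factors for `HP` -/
def hpB (n : ℕ) : ℕ := (2 * (n + 1)) * ((2 * (n + 1)) * n) + 1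

theorem hp_size {S : Type} [Semigroup S] [Finite S] {k : ℕ} (T : Fin k → FinSg)
    (hT : ∀ i, ZeroSimple (T i)) (f : (∀ i, T i) →ₙ* S) (hf : Surjective f) :
    ∃ T' : Fin k → FinSg, (∀ i, ZeroSimple (T' i) ∧ Nat.card (T' i) ≤ hpB (Nat.card S)) ∧
      ∃ f' : (∀ i, T' i) →ₙ* S, Surjective f' := by
  classical
  choose x hx using hf
  choose z hz using fun i => zs_of_zeroSimple (hT i)
  choose x0 x0' hx0 using fun i => (hz i).2.1
  let y : ∀ i, Option S → T i := fun i o => o.elim (x0 i * x0' i) fun s =>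
    if x s i = z i then x0 i * x0' i else x s i
  have hy : ∀ i o, y i o ≠ z i := by
    intro i o
    cases o with
    | none => exact hx0 i
    | some s =>
      show (if x s i = z i then x0 i * x0' i else x s i) ≠ z i
      split_ifs with h
      · exact hx0 i
      · exact h
  choose a ha using fun i o => (hz i).exists_right (hy i o)
  choose b hb using fun i o => (hz i).exists_left (hy i o)
  let α : ∀ i, Option S ⊕ Option S → T i := fun i => Sum.elim (y i) (a i)
  let β : ∀ i, Option S ⊕ Option S → T i := fun i => Sum.elim (y i) (b i)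
  have hα : ∀ i p, α i p ≠ z i := by
    rintro i (o | o)
    · exact hy i o
    · exact (hz i).mul_right_ne (ha i o)
  have hβ : ∀ i p, β i p ≠ z i := by
    rintro i (o | o)
    · exact hy i o
    · exact (hz i).mul_left_ne (hb i o)
  have h1 : ∀ i p, ∃ q, β i q * α i p ≠ z i := by
    rintro i (o | o)
    · exact ⟨Sum.inr o, hb i o⟩
    · exact ⟨Sum.inl o, ha i o⟩
  have h2 : ∀ i q, ∃ p, β i q * α i p ≠ z i := by
    rintro i (o | o)
    · exact ⟨Sum.inr o, ha i o⟩
    · exact ⟨Sum.inl o, hb i o⟩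
  let C : Fin k → Type := fun i => sub (hz i) (α i) (β i)
  let g : (∀ i, C i) →ₙ* S :=
    ⟨fun w => f fun i => (w i).1, fun w w' => by rw [← map_mul]; rfl⟩
  have hg : Surjective g := by
    intro s
    have hmem : ∀ i, x s i ∈ sub (hz i) (α i) (β i) := by
      intro i
      by_cases h : x s i = z i
      · exact Or.inl h
      · have hys : α i (Sum.inl (some s)) = x s i := by
          show (if x s i = z i then x0 i * x0' i else x s i) = _
          rw [if_neg h]
        have hys' : β i (Sum.inl (some s)) = x s i := by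
          show (if x s i = z i then x0 i * x0' i else x s i) = _
          rw [if_neg h]
        refine Or.inr ⟨h, ⟨Sum.inl (some s), ?_⟩, ⟨Sum.inl (some s), ?_⟩⟩
        · rw [hys]; exact (hz i).rr_refl h
        · rw [hys']; exact (hz i).ll_refl h
    exact ⟨fun i => ⟨x s i, hmem i⟩, hx s⟩
  have hz' : ∀ i, ZS (⟨z i, Or.inl rfl⟩ : C i) := fun i =>
    sub_zs (hz i) (α i) (β i) (hα i) (hβ i) (h1 i) (h2 i)
  refine ⟨fun i => ⟨(th g hz' i).Quotient, inferInstance, Quotient.finite _,
    ⟨((⟨z i, Or.inl rfl⟩ : C i) : (th g hz' i).Quotient)⟩⟩, ?_, fq g hz', fq_surj g hz' hg⟩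
  intro i
  refine ⟨zeroSimple_of_zs (zs_quot g hz' i), ?_⟩
  have hrow : ∀ u : C i, ∃ p : Option S ⊕ Option S, u ≠ ⟨z i, Or.inl rfl⟩ → RR u.1 (α i p) := by
    intro u
    rcases u.2 with h | ⟨h, ⟨p, hp⟩, -⟩
    · exact ⟨Sum.inl none, fun h' => absurd (Subtype.ext h) h'⟩
    · exact ⟨p, fun _ => hp⟩
  have hcol : ∀ u : C i, ∃ p : Option S ⊕ Option S, u ≠ ⟨z i, Or.inl rfl⟩ → LL u.1 (β i p) := by
    intro u
    rcases u.2 with h | ⟨h, -, ⟨p, hp⟩⟩
    · exact ⟨Sum.inl none, fun h' => absurd (Subtype.ext h) h'⟩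
    · exact ⟨p, fun _ => hp⟩
  choose ra hra using hrow
  choose lb hlb using hcol
  have hval : ∀ u : C i, u ≠ ⟨z i, Or.inl rfl⟩ → u.1 ≠ z i := fun u hu h => hu (Subtype.ext h)
  have := card_quot g hz' i ra lb
    (fun u v hu hv huv => sub_rr (hz i) (α i) (β i) (hα i) (hβ i) (h1 i) (h2 i) (hval u hu)
      (hval v hv) ((hra u hu).trans (by rw [huv]; exact (hra v hv).symm)))
    (fun u v hu hv huv => sub_ll (hz i) (α i) (β i) (hα i) (hβ i) (h1 i) (h2 i) (hval u hu)
      (hval v hv) ((hlb u hu).trans (by rw [huv]; exact (hlb v hv).symm)))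
  refine this.trans (le_of_eq ?_)
  have := Fintype.ofFinite S
  simp only [hpB, Nat.card_eq_fintype_card, Fintype.card_sum, Fintype.card_option]
  ring

end

section
open Function

/-- nonempty words -/
inductive W (S : Type) : Type
  | one (s : S) : W S
  | snoc (w : W S) (s : S) : W S

namespace W
variable {S : Type}

def mul' (u : W S) : W S → W S
  | one s => snoc u s
  | snoc v s => snoc (mul' u v) s

instance : Semigroup (W S) where
  mul := mul'
  mul_assoc a b c := by
    show mul' (mul' a b) c = mul' a (mul' b c)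
    induction c with
    | one s => rfl
    | snoc v s ih =>
      show snoc (mul' (mul' a b) v) s = snoc (mul' a (mul' b v)) s
      rw [ih]

theorem mul_one' (u : W S) (s : S) : u * one s = snoc u s := rfl
theorem mul_snoc (u v : W S) (s : S) : u * snoc v s = snoc (u * v) s := rfl

def head : W S → S
  | one s => s
  | snoc w _ => head w

def last : W S → S
  | one s => s
  | snoc _ s => s

theorem head_mul (u v : W S) : head (u * v) = head u := by
  induction v with
  | one s => rfl
  | snoc v s ih => exact ih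

theorem last_mul (u v : W S) : last (u * v) = last v := by
  cases v <;> rfl

/-- value of a word -/
def ev {M : Type} [Semigroup M] (x : S → M) : W S → M
  | one s => x s
  | snoc w s => ev x w * x s

theorem ev_mul {M : Type} [Semigroup M] (x : S → M) (u v : W S) :
    ev x (u * v) = ev x u * ev x v := by
  induction v with
  | one s => rfl
  | snoc v s ih =>
    show ev x (u * v) * x s = ev x u * (ev x v * x s)
    rw [ih, mul_assoc]

theorem ev_npw {M : Type} [Semigroup M] (x : S → M) (u : W S) (k : ℕ) :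
    ev x (npw u k) = npw (ev x u) k := by
  induction k with
  | zero => rfl
  | succ k ih =>
    show ev x (npw u k * u) = npw (ev x u) k * ev x u
    rw [ev_mul, ih]

theorem map_ev {M N : Type} [Semigroup M] [Semigroup N] (g : M →ₙ* N) (x : S → M) (u : W S) :
    g (ev x u) = ev (fun s => g (x s)) u := by
  induction u with
  | one s => rfl
  | snoc v s ih =>
    show g (ev x v * x s) = _
    rw [map_mul, ih]
    rfl

/-- at least two letters -/
def Long : W S → Prop
  | one _ => False
  | snoc _ _ => True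

theorem long_mul (u v : W S) : Long (u * v) := by
  cases v <;> trivial

theorem Long.split {w : W S} (h : Long w) : ∃ s v, w = one s * v := by
  induction w with
  | one s => exact h.elim
  | snoc w t ih =>
    cases w with
    | one s => exact ⟨s, one t, rfl⟩
    | snoc w s =>
      obtain ⟨a, v, hv⟩ := ih trivial
      exact ⟨a, snoc v t, by rw [mul_snoc, ← hv]⟩

end W

open W

/-- digraphs with loops, and a set of admissible vertices -/
abbrev Dig (S : Type) := (S → Prop) × (S → S → Prop)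

section dig
variable {S : Type}

def arc (D : Dig S) (s t : S) : Prop := D.1 s ∧ D.1 t ∧ D.2 s t

def path (D : Dig S) : W S → Prop
  | one s => D.1 s
  | snoc w t => path D w ∧ arc D (last w) t

theorem path_mul {D : Dig S} (u v : W S) :
    path D (u * v) ↔ path D u ∧ arc D (last u) (head v) ∧ path D v := by
  induction v with
  | one t =>
    constructor
    · rintro ⟨h1, h2⟩; exact ⟨h1, h2, h2.2.1⟩
    · rintro ⟨h1, h2, -⟩; exact ⟨h1, h2⟩
  | snoc v t ih =>
    show path D (u * v) ∧ arc D (last (u * v)) t ↔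
      path D u ∧ arc D (last u) (head v) ∧ path D v ∧ arc D (last v) t
    rw [ih, last_mul]
    tauto

def reach (D : Dig S) (t s : S) : Prop := ∃ c : W S, path D c ∧ head c = t ∧ last c = s

theorem reach_of_arc {D : Dig S} {s t r : S} (h : arc D s t) (h' : reach D t r) :
    reach D s r := by
  obtain ⟨c, hc, rfl, rfl⟩ := h'
  refine ⟨one s * c, ?_, ?_, ?_⟩
  · rw [path_mul]; exact ⟨h.1, h, hc⟩
  · rw [head_mul]; rfl
  · rw [last_mul]

theorem reach_last {D : Dig S} {w : W S} (h : path D w) : reach D (last w) (last w) := by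
  refine ⟨one (last w), ?_, rfl, rfl⟩
  cases w with
  | one s => exact h
  | snoc w t => exact h.2.2.1

/-- the digraph of a family of elements of a semigroup with zero -/
def digOf {C : Type} [Semigroup C] (z : C) (y : S → C) : Dig S :=
  (fun s => y s ≠ z, fun s t => y s * y t ≠ z)

variable {C : Type} [Semigroup C] {z : C}

theorem ev_last {M : Type} [Semigroup M] (y : S → M) (w : W S) :
    ev y w = y (last w) ∨ ∃ a, ev y w = a * y (last w) := by
  cases w with
  | one s => exact Or.inl rfl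
  | snoc w s => exact Or.inr ⟨ev y w, rfl⟩

theorem ev_ne_iff [Finite C] (h : ZS z) (y : S → C) (w : W S) :
    ev y w ≠ z ↔ path (digOf z y) w := by
  induction w with
  | one s => exact Iff.rfl
  | snoc w t ih =>
    show ev y w * y t ≠ z ↔ path (digOf z y) w ∧ arc (digOf z y) (last w) t
    rw [← ih]
    constructor
    · intro h1
      have h2 : ev y w ≠ z := h.mul_left_ne h1
      have h3 : y (last w) * y t ≠ z := by
        rcases ev_last y w with h4 | ⟨a, h4⟩
        · rwa [← h4]
        · rw [h4, mul_assoc] at h1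
          exact h.mul_right_ne h1
      exact ⟨h2, h.mul_left_ne h3, h.mul_right_ne h3, h3⟩
    · rintro ⟨h2, -, -, h3⟩
      rcases ev_last y w with h4 | ⟨a, h4⟩
      · rw [h4]; exact h3
      · rw [h4]
        exact h.cat (by rw [← h4]; exact h2) h3

theorem ev_pump [Finite C] (h : ZS z) (y : S → C) {c : W S} (hc : path (digOf z y) c)
    (ha : arc (digOf z y) (last c) (head c)) {k : ℕ}
    (hk : npw (ev y c) k * npw (ev y c) k = npw (ev y c) k) (p : W S) (hp : last p = last c) :
    ev y (p * npw c k) = ev y p := by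
  have h1 : y (last c) * ev y c ≠ z := by
    have : ev y (one (last c) * c) ≠ z := by
      rw [ev_ne_iff h, path_mul]
      exact ⟨ha.1, ha, hc⟩
    rwa [ev_mul] at this
  have h2 : y (last c) * npw (ev y c) k = y (last c) := by
    refine h.pump h1 ?_ hk
    exact ev_last y c
  rw [ev_mul, ev_npw]
  rcases ev_last y p with h3 | ⟨a, h3⟩
  · rw [h3, hp, h2]
  · rw [h3, mul_assoc, hp, h2]

end dig

end

section
open Function W Classical

/-- a right congruence on words, refining the last letter, with the pumping property for closed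
paths of the digraph `D` -/
structure RC (S : Type) (D : Dig S) where
  R : Setoid (W S)
  R_last : ∀ p p', R p p' → last p = last p'
  R_snoc : ∀ p p' s, R p p' → R (snoc p s) (snoc p' s)
  R_pump : ∀ c, path D c → arc D (last c) (head c) → ∃ k, ∀ p, last p = last c →
    R (p * npw c k) p

namespace RC
variable {S : Type} {D : Dig S} (X : RC S D)

theorem R_mul_of_head {p p' : W S} {t : S} (h : X.R (snoc p t) (snoc p' t)) :
    ∀ w : W S, head w = t → X.R (p * w) (p' * w) := by
  intro w
  induction w with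
  | one s => rintro rfl; exact h
  | snoc w s ih => intro hw; exact X.R_snoc _ _ s (ih hw)

/-- classes -/
def Q : Type := Quotient X.R

def cls (p : W S) : X.Q := Quotient.mk X.R p

def qapp (q : X.Q) (t : S) : X.Q :=
  Quotient.liftOn q (fun p => X.cls (snoc p t)) fun _ _ h => Quotient.sound (X.R_snoc _ _ t h)

def qlast (q : X.Q) : S :=
  Quotient.liftOn q last fun _ _ h => X.R_last _ _ h

/-- states -/
abbrev St : Type := (S → Option X.Q) × X.Q

/-- the domain on which an arc acts -/
def dom (s t : S) : Set X.St :=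
  {x | if reach D t s then X.qlast x.2 = s else x.1 s = none}

/-- the action of an arc -/
noncomputable def stp (s t : S) (x : X.St) : X.St :=
  if reach D t s then (x.1, X.qapp x.2 t) else (update x.1 s (some x.2), X.qapp x.2 t)

theorem stp_inj {s t : S} (hst : arc D s t) : Set.InjOn (X.stp s t) (X.dom s t) := by
  rintro ⟨H, q⟩ hx ⟨H', q'⟩ hx' he
  by_cases h : reach D t s
  · simp only [dom, h, if_true, Set.mem_ofPred_eq] at hx hx'
    simp only [stp, h, if_true, Prod.mk.injEq] at he
    obtain ⟨h1, h2⟩ := he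
    refine Prod.ext h1 ?_
    show q = q'
    induction q using Quotient.inductionOn with
    | h p =>
    induction q' using Quotient.inductionOn with
    | h p' =>
      have h3 : X.R (snoc p t) (snoc p' t) := Quotient.exact h2
      have hp : last p = s := hx
      have hp' : last p' = s := hx'
      obtain ⟨c, hc, rfl, rfl⟩ := h
      obtain ⟨k, hk⟩ := X.R_pump c hc hst
      have h4 : head (npw c k) = head c := by
        cases k with
        | zero => rfl
        | succ k =>
          show head (npw c k * c) = head c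
          rw [npw_comm, head_mul]
      have h6 := X.R_mul_of_head h3 (npw c k) h4
      exact Quotient.sound (X.R.trans (X.R.symm (hk p hp)) (X.R.trans h6 (hk p' hp')))
  · simp only [dom, h, if_false, Set.mem_ofPred_eq] at hx hx'
    simp only [stp, h, if_false, Prod.mk.injEq] at he
    obtain ⟨h1, -⟩ := he
    have h2 : q = q' := by
      have := congrFun h1 s
      simpa using this
    refine Prod.ext ?_ h2
    show H = H'
    funext r
    by_cases hr : r = s
    · subst hr; rw [hx, hx']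
    · have := congrFun h1 r
      simpa [hr] using this

theorem extend_perm {α : Type} [Finite α] (f : α → α) (s : Set α) (h : Set.InjOn f s) :
    ∃ g : Equiv.Perm α, ∀ x ∈ s, g x = f x := by
  have := Fintype.ofFinite α
  obtain ⟨g, hg⟩ := Set.MapsTo.exists_equiv_extend_of_card_eq (t := (Finset.univ : Finset α))
    (s := s) (f := f) (by simp) (fun x _ => by simp) h
  exact ⟨g.trans (Equiv.subtypeUnivEquiv (by simp)), fun x hx => hg x hx⟩

variable [Finite S] [Finite X.Q]

theorem exists_gg (s t : S) :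
    ∃ g : Equiv.Perm X.St, arc D s t → ∀ x ∈ X.dom s t, g x = X.stp s t x := by
  by_cases h : arc D s t
  · obtain ⟨g, hg⟩ := extend_perm (X.stp s t) (X.dom s t) (X.stp_inj h)
    exact ⟨g, fun _ => hg⟩
  · exact ⟨1, fun h' => absurd h' h⟩

noncomputable def gg (s t : S) : Equiv.Perm X.St := (X.exists_gg s t).choose

theorem gg_spec {s t : S} (h : arc D s t) {x : X.St} (hx : x ∈ X.dom s t) :
    X.gg s t x = X.stp s t x := (X.exists_gg s t).choose_spec h x hx

/-- sandwich matrix -/
noncomputable def P : S ⊕ S → S ⊕ S → Option (Equiv.Perm X.St)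
  | Sum.inl s, Sum.inl t => if arc D s t then some (X.gg s t)⁻¹ else none
  | Sum.inl s, Sum.inr t => if s = t then some 1 else none
  | Sum.inr s, Sum.inl t => if s = t then some 1 else none
  | Sum.inr _, Sum.inr _ => none

/-- the Rees matrix semigroup -/
abbrev M : Type := RM (Equiv.Perm X.St) (S ⊕ S) (S ⊕ S) X.P

theorem P_zs [Nonempty S] : ZS (RM.zero X.P : X.M) := by
  apply RM.zs
  · rintro (s | s)
    · exact ⟨Sum.inr s, 1, by simp [P]⟩
    · exact ⟨Sum.inl s, 1, by simp [P]⟩
  · rintro (s | s)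
    · exact ⟨Sum.inr s, 1, by simp [P]⟩
    · exact ⟨Sum.inl s, 1, by simp [P]⟩

/-- generators -/
noncomputable def gen (s : S) : X.M :=
  if D.1 s then RM.el X.P (Sum.inl s) 1 (Sum.inl s) else RM.zero X.P

noncomputable def lab : W S → Equiv.Perm X.St
  | one _ => 1
  | snoc w t => lab w * (X.gg (last w) t)⁻¹

theorem ev_gen (w : W S) :
    (path D w → ev X.gen w = RM.el X.P (Sum.inl (head w)) (X.lab w)
      (Sum.inl (last w))) ∧ (¬ path D w → ev X.gen w = RM.zero X.P) := by
  induction w with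
  | one s =>
    constructor
    · intro h
      show X.gen s = _
      exact if_pos h
    · intro h
      show X.gen s = _
      exact if_neg h
  | snoc w t ih =>
    constructor
    · rintro ⟨h1, h2⟩
      show ev X.gen w * X.gen t = _
      rw [ih.1 h1]
      have h3 : X.gen t = RM.el X.P (Sum.inl t) 1 (Sum.inl t) := if_pos h2.2.1
      have h4 : X.P (Sum.inl (last w)) (Sum.inl t) = some (X.gg (last w) t)⁻¹ := if_pos h2
      rw [h3, RM.el_mul_el h4, mul_one]
      rfl
    · intro h
      show ev X.gen w * X.gen t = _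
      by_cases h1 : path D w
      · have h2 : ¬ arc D (last w) t := fun h2 => h ⟨h1, h2⟩
        rw [ih.1 h1]
        by_cases h5 : D.1 t
        · have h3 : X.gen t = RM.el X.P (Sum.inl t) 1 (Sum.inl t) := if_pos h5
          have h4 : X.P (Sum.inl (last w)) (Sum.inl t) = none := if_neg h2
          rw [h3, RM.el_mul_el_none h4]
        · have h3 : X.gen t = RM.zero X.P := if_neg h5
          rw [h3, RM.mul_zero']
      · rw [ih.2 h1, RM.zero_mul']

theorem state_inv {w : W S} (hw : path D w) :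
    ∃ H, (X.lab w)⁻¹ (fun _ => none, X.cls (one (head w))) = (H, X.cls w) ∧
      ∀ s, H s ≠ none → ¬ reach D (last w) s := by
  induction w with
  | one s => exact ⟨fun _ => none, rfl, fun _ h => absurd rfl h⟩
  | snoc w t ih =>
    obtain ⟨h1, h2⟩ := hw
    obtain ⟨H, h3, h4⟩ := ih h1
    have h5 : (X.lab (snoc w t))⁻¹ (fun _ => none, X.cls (one (head (snoc w t)))) =
        X.gg (last w) t (H, X.cls w) := by
      rw [← h3]
      show (X.lab w * (X.gg (last w) t)⁻¹)⁻¹ _ = _
      rw [mul_inv_rev, inv_inv]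
      rfl
    rw [h5]
    have h6 : ((H, X.cls w) : X.St) ∈ X.dom (last w) t := by
      show if reach D t (last w) then X.qlast (X.cls w) = last w else H (last w) = none
      split_ifs with h7
      · rfl
      · by_contra h8
        exact h4 _ h8 (reach_last h1)
    rw [X.gg_spec h2 h6]
    by_cases h7 : reach D t (last w)
    · refine ⟨H, ?_, fun s hs hr => h4 s hs (reach_of_arc h2 hr)⟩
      unfold stp
      rw [if_pos h7]
      rfl
    · refine ⟨update H (last w) (some (X.cls w)), ?_, fun s hs hr => ?_⟩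
      · unfold stp
        rw [if_neg h7]
        rfl
      · by_cases h8 : s = last w
        · subst h8; exact h7 hr
        · rw [update_of_ne h8] at hs
          exact h4 s hs (reach_of_arc h2 hr)

theorem el_inj {G I L : Type} {P : L → I → Option G} {i i' : I} {g g' : G} {l l' : L}
    (h : RM.el P i g l = RM.el P i' g' l') : i = i' ∧ g = g' ∧ l = l' := by
  have h1 := Option.some.inj h
  exact ⟨congrArg Prod.fst h1, congrArg (fun x => x.2.1) h1, congrArg (fun x => x.2.2) h1⟩

theorem R_of_ev {w w' : W S} (hw : path D w) (hw' : path D w')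
    (h : ev X.gen w = ev X.gen w') : head w = head w' ∧ X.R w w' := by
  rw [(X.ev_gen w).1 hw, (X.ev_gen w').1 hw'] at h
  obtain ⟨h1, h2, -⟩ := el_inj h
  have h1' : head w = head w' := Sum.inl.inj h1
  refine ⟨h1', ?_⟩
  obtain ⟨H, h3, -⟩ := X.state_inv hw
  obtain ⟨H', h4, -⟩ := X.state_inv hw'
  rw [h2, h1', h4] at h3
  exact Quotient.exact (congrArg Prod.snd h3).symm

theorem path_iff_of_ev {w w' : W S} (h : ev X.gen w = ev X.gen w') (hw : path D w) :
    path D w' := by
  by_contra hw'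
  rw [(X.ev_gen w).1 hw, (X.ev_gen w').2 hw'] at h
  exact Option.some_ne_none _ h

/-- the bound for the sizes of the factors in terms of the number of classes -/
def stN (n q : ℕ) : ℕ := (q + 1) ^ n * q
def rmB (n q : ℕ) : ℕ := (n + n) * (stN n q ^ stN n q * (n + n)) + 1

theorem card_perm_le (α : Type) [Finite α] [Nonempty α] {N : ℕ} (h : Nat.card α ≤ N) :
    Nat.card (Equiv.Perm α) ≤ N ^ N := by
  have h1 : Nat.card (Equiv.Perm α) ≤ Nat.card (α → α) :=
    Nat.card_le_card_of_injective (fun σ : Equiv.Perm α => (σ : α → α)) DFunLike.coe_injective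
  rw [Nat.card_fun] at h1
  have h2 : 0 < Nat.card α := Nat.card_pos
  exact h1.trans ((Nat.pow_le_pow_left h _).trans (Nat.pow_le_pow_right (by omega) h))

theorem card_rm [Nonempty S] {q : ℕ} (hQ : Nat.card X.Q ≤ q) :
    Nat.card X.M ≤ rmB (Nat.card S) q := by
  obtain ⟨s0⟩ := ‹Nonempty S›
  have : Nonempty X.Q := ⟨X.cls (one s0)⟩
  have h1 : Nat.card X.St ≤ stN (Nat.card S) q := by
    have h2 : Nat.card (Option X.Q) = Nat.card X.Q + 1 := by
      have := Fintype.ofFinite X.Q
      simp [Nat.card_eq_fintype_card]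
    rw [Nat.card_prod, Nat.card_fun, h2]
    exact Nat.mul_le_mul (Nat.pow_le_pow_left (by omega) _) hQ
  have : Nonempty X.St := ⟨(fun _ => none, X.cls (one s0))⟩
  rw [RM.card, Nat.card_sum]
  have h3 := card_perm_le X.St h1
  have h4 := Nat.mul_le_mul_left (Nat.card S + Nat.card S)
    (Nat.mul_le_mul_right (Nat.card S + Nat.card S) h3)
  show _ ≤ (Nat.card S + Nat.card S) * (stN (Nat.card S) q ^ stN (Nat.card S) q *
    (Nat.card S + Nat.card S)) + 1
  omega

/-- the subsemigroup generated by the generators -/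
def U : Subsemigroup X.M where
  carrier := {r | ∃ w, ev X.gen w = r}
  mul_mem' := by
    rintro _ _ ⟨w, rfl⟩ ⟨w', rfl⟩
    exact ⟨w * w', ev_mul _ _ _⟩

end RC

theorem card_dig (S : Type) [Finite S] :
    Nat.card (Dig S) = 2 ^ Nat.card S * 2 ^ (Nat.card S * Nat.card S) := by
  have := Fintype.ofFinite S
  simp only [Dig, Nat.card_eq_fintype_card, Fintype.card_prod, Fintype.card_fun,
    Fintype.card_prop]
  rw [pow_mul]

end

section
open Function W Classical

/-- abstract data extracted from a surjection of a product of subsemigroups of 0-simple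
semigroups -/
structure Sys (S : Type) [Semigroup S] where
  F : (Dig S → W S) → S
  Str : Dig S → W S → W S → Prop
  F_mul : ∀ u v : Dig S → W S, F (u * v) = F u * F v
  F_one : ∀ s, F (fun _ => one s) = s
  Str_eqv : ∀ D, Equivalence (Str D)
  F_str : ∀ D p p', Str D p p' → ∀ u : Dig S → W S, F (update u D p) = F (update u D p')
  Str_zero : ∀ D p p', ¬ path D p → ¬ path D p' → Str D p p'
  Str_pump : ∀ D c, path D c → arc D (last c) (head c) → ∃ k, ∀ p, last p = last c →
    Str D (p * npw c k) p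

namespace Sys
variable {S : Type} [Semigroup S] (Y : Sys S)

/-- equality in all contexts with long other coordinates -/
def E (D : Dig S) (p p' : W S) : Prop :=
  ∀ u : Dig S → W S, (∀ D', D' ≠ D → Long (u D')) → Y.F (update u D p) = Y.F (update u D p')

theorem E_of_str {D : Dig S} {p p' : W S} (h : Y.Str D p p') : Y.E D p p' :=
  fun u _ => Y.F_str D p p' h u

theorem E_symm {D : Dig S} {p p' : W S} (h : Y.E D p p') : Y.E D p' p :=
  fun u hu => (h u hu).symm

theorem E_trans {D : Dig S} {p p' p'' : W S} (h : Y.E D p p') (h' : Y.E D p' p'') :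
    Y.E D p p'' :=
  fun u hu => (h u hu).trans (h' u hu)

theorem E_split (D : Dig S) (p p' : W S)
    (h : ∀ a : Dig S → S, Y.F (update (fun D' => one (a D')) D p) =
      Y.F (update (fun D' => one (a D')) D p')) (t : W S) : Y.E D (p * t) (p' * t) := by
  intro u hu
  have h1 : ∀ D', ∃ s : S, ∃ v : W S, D' ≠ D → u D' = one s * v := by
    intro D'
    by_cases hD : D' = D
    · exact ⟨head t, t, fun h => absurd hD h⟩
    · obtain ⟨s, v, hv⟩ := (hu D' hD).split
      exact ⟨s, v, fun _ => hv⟩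
  choose a v hav using h1
  have h2 : ∀ q : W S, update u D (q * t) = update (fun D' => one (a D')) D q * update v D t := by
    intro q
    funext D'
    by_cases hD : D' = D
    · subst hD; simp
    · simp [hD, hav D' hD]
  rw [h2, h2, Y.F_mul, Y.F_mul, h]

/-- the right congruence -/
def R (D : Dig S) : Setoid (W S) where
  r p p' := last p = last p' ∧ Y.E D p p' ∧ ∀ t, Y.E D (p * t) (p' * t)
  iseqv := ⟨fun _ => ⟨rfl, fun _ _ => rfl, fun _ _ _ => rfl⟩,
    fun h => ⟨h.1.symm, Y.E_symm h.2.1, fun t => Y.E_symm (h.2.2 t)⟩,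
    fun h h' => ⟨h.1.trans h'.1, Y.E_trans h.2.1 h'.2.1, fun t => Y.E_trans (h.2.2 t) (h'.2.2 t)⟩⟩

theorem R_of_str {D : Dig S} {p p' : W S} (h : Y.Str D p p') (hl : last p = last p') :
    Y.R D p p' :=
  ⟨hl, Y.E_of_str h, Y.E_split D p p' fun a => Y.F_str D p p' h (fun D' => one (a D'))⟩

theorem last_npw (c : W S) (k : ℕ) : last (npw c k) = last c := by
  cases k with
  | zero => rfl
  | succ k =>
    show last (npw c k * c) = last c
    rw [last_mul]

def rc (D : Dig S) : RC S D where
  R := Y.R D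
  R_last := fun _ _ h => h.1
  R_snoc := by
    intro p p' s h
    refine ⟨rfl, h.2.2 (one s), fun t => ?_⟩
    have := h.2.2 (one s * t)
    rwa [← mul_assoc, ← mul_assoc] at this
  R_pump := by
    intro c hc ha
    obtain ⟨k, hk⟩ := Y.Str_pump D c hc ha
    exact ⟨k, fun p hp => Y.R_of_str (hk p hp) (by rw [last_mul, last_npw, hp])⟩

/-- the code of a class -/
noncomputable def code (D : Dig S) : W S → S ⊕ (((Dig S → S) → S) × S)
  | one s => Sum.inl s
  | snoc r t => Sum.inr (fun a => Y.F (update (fun D' => one (a D')) D r), t)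

theorem R_of_code {D : Dig S} {p p' : W S} (h : Y.code D p = Y.code D p') : Y.R D p p' := by
  cases p with
  | one s =>
    cases p' with
    | one s' =>
      have : s = s' := Sum.inl.inj h
      subst this
      exact (Y.R D).refl _
    | snoc w s' => simp [code] at h
  | snoc w s =>
    cases p' with
    | one s' => simp [code] at h
    | snoc w' s' =>
      have h' := Sum.inr.inj h
      have h1 : s = s' := congrArg Prod.snd h'
      subst h1
      have h2 := fun a => congrFun (congrArg Prod.fst h') a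
      refine ⟨rfl, Y.E_split D w w' (fun a => h2 a) (one s), fun t => ?_⟩
      have := Y.E_split D w w' (fun a => h2 a) (one s * t)
      rwa [← mul_assoc, ← mul_assoc] at this

/-- bound for the number of classes -/
def qB (n : ℕ) : ℕ := n + n ^ (n ^ (2 ^ n * 2 ^ (n * n))) * n

variable [Finite S]

theorem code_inj (D : Dig S) :
    Injective (fun q : (Y.rc D).Q => Y.code D (Quotient.out q)) := by
  intro q q' h
  have := Quotient.sound (s := Y.R D) (Y.R_of_code h)
  have e : ∀ q : (Y.rc D).Q, Quotient.mk (Y.R D) (Quotient.out q) = q := fun q =>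
    Quotient.out_eq q
  rwa [e, e] at this

instance (D : Dig S) : Finite (Y.rc D).Q := by
  have := Fintype.ofFinite S
  exact Finite.of_injective _ (Y.code_inj D)

theorem card_Q (D : Dig S) : Nat.card (Y.rc D).Q ≤ qB (Nat.card S) := by
  refine (Nat.card_le_card_of_injective _ (Y.code_inj D)).trans (le_of_eq ?_)
  rw [Nat.card_sum, Nat.card_prod, Nat.card_fun, Nat.card_fun, card_dig]
  rfl

/-- the bound for the sizes of the factors -/
def hpsB (n : ℕ) : ℕ := RC.rmB n (qB n)

noncomputable def diag (s : S) : ∀ D, (Y.rc D).U :=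
  fun D => ⟨ev (Y.rc D).gen (one s), one s, rfl⟩

theorem diag_inj {s t : S} (h : Y.diag s = Y.diag t) : s = t := by
  let D : Dig S := (fun _ => True, fun _ _ => True)
  have h1 : ev (Y.rc D).gen (one s) = ev (Y.rc D).gen (one t) :=
    congrArg Subtype.val (congrFun h D)
  have h2 : path D (one s) := trivial
  have h3 : path D (one t) := trivial
  exact ((Y.rc D).R_of_ev h2 h3 h1).1

noncomputable def rep (t : ∀ D, (Y.rc D).U) : Dig S → W S :=
  if h : ∃ s, t = Y.diag s then fun _ => one h.choose else fun D => (t D).2.choose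

theorem rep_spec (t : ∀ D, (Y.rc D).U) (D : Dig S) : ev (Y.rc D).gen (Y.rep t D) = (t D).1 := by
  unfold rep
  split_ifs with h
  · have := h.choose_spec
    conv_rhs => rw [this]
    rfl
  · exact (t D).2.choose_spec

theorem rep_diag (s : S) : Y.rep (Y.diag s) = fun _ => one s := by
  have h : ∃ s', Y.diag s = Y.diag s' := ⟨s, rfl⟩
  unfold rep
  rw [dif_pos h]
  have := Y.diag_inj h.choose_spec
  rw [← this]

/-- words with the same value as long words -/
theorem F_eq (v u : Dig S → W S) (hu : ∀ D, Long (u D))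
    (h : ∀ D, ev (Y.rc D).gen (v D) = ev (Y.rc D).gen (u D)) : Y.F v = Y.F u := by
  have key : ∀ D, ∃ a, Long a ∧ Y.Str D (v D) a ∧ Y.E D a (u D) := by
    intro D
    have hE : ∀ a, Y.Str D (v D) a → Y.E D a (u D) := by
      intro a ha
      by_cases hp : path D (u D)
      · have hq := (Y.rc D).path_iff_of_ev (h D).symm hp
        have h1 : Y.R D (v D) (u D) := ((Y.rc D).R_of_ev hq hp (h D)).2
        exact Y.E_trans (Y.E_symm (Y.E_of_str ha)) h1.2.1
      · have hq : ¬ path D (v D) := fun hq => hp ((Y.rc D).path_iff_of_ev (h D) hq)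
        exact Y.E_of_str ((Y.Str_eqv D).trans ((Y.Str_eqv D).symm ha) (Y.Str_zero D _ _ hq hp))
    by_cases hv : Long (v D)
    · exact ⟨v D, hv, (Y.Str_eqv D).refl _, hE _ ((Y.Str_eqv D).refl _)⟩
    · by_cases hp : path D (u D)
      · have hq := (Y.rc D).path_iff_of_ev (h D).symm hp
        obtain ⟨h1, h2⟩ := (Y.rc D).R_of_ev hq hp (h D)
        obtain ⟨s, c, hc⟩ := (hu D).split
        rw [hc, path_mul] at hp
        have h3 : last (v D) = last c := by
          have := (Y.rc D).R_last _ _ h2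
          rwa [hc, last_mul] at this
        have h4 : last (v D) = s := by
          have h5 : head (v D) = s := by
            rw [h1, hc, head_mul]; rfl
          generalize v D = x at hv h5
          cases x with
          | one r => exact h5
          | snoc x r => exact absurd trivial hv
        have h6 : arc D (last c) (head c) := by
          rw [← h3, h4]
          exact hp.2.1
        obtain ⟨k, hk⟩ := Y.Str_pump D c hp.2.2 h6
        have h7 := (Y.Str_eqv D).symm (hk (v D) h3)
        exact ⟨v D * npw c k, long_mul _ _, h7, hE _ h7⟩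
      · have hq : ¬ path D (v D) := fun hq => hp ((Y.rc D).path_iff_of_ev (h D) hq)
        exact ⟨u D, hu D, Y.Str_zero D _ _ hq hp, fun _ _ => rfl⟩
  choose a ha1 ha2 ha3 using key
  have := Fintype.ofFinite (Dig S)
  have h1 : Y.F v = Y.F a := by
    refine change_all Y.F (fun D => Y.Str D) (fun _ => True) ?_ v a trivial ha2
    intro w _ D b hb
    refine ⟨?_, trivial⟩
    have := Y.F_str D _ _ hb w
    rwa [update_eq_self] at this
  have h2 : Y.F a = Y.F u := by
    refine change_all Y.F (fun D p q => Long q ∧ Y.E D p q) (fun w => ∀ D, Long (w D)) ?_ a u ha1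
      (fun D => ⟨hu D, ha3 D⟩)
    rintro w hw D b ⟨hb1, hb2⟩
    constructor
    · have := hb2 w (fun D' _ => hw D')
      rwa [update_eq_self] at this
    · intro D'
      by_cases hD : D' = D
      · subst hD; simpa using hb1
      · rw [update_of_ne hD]; exact hw D'
  exact h1.trans h2

noncomputable def f' : (∀ D, (Y.rc D).U) →ₙ* S where
  toFun t := Y.F (Y.rep t)
  map_mul' t t' := by
    rw [← Y.F_mul]
    apply Y.F_eq
    · intro D; exact long_mul _ _
    · intro D
      rw [Y.rep_spec]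
      show (t D).1 * (t' D).1 = ev (Y.rc D).gen (Y.rep t D * Y.rep t' D)
      rw [ev_mul, Y.rep_spec, Y.rep_spec]

theorem f'_surj : Surjective Y.f' := by
  intro s
  refine ⟨Y.diag s, ?_⟩
  show Y.F (Y.rep (Y.diag s)) = s
  rw [Y.rep_diag, Y.F_one]

end Sys

/-- Reduction for `HPS`. -/
theorem hps_red {S : Type} [Semigroup S] [Finite S] [Nonempty S] {ι : Type} [Finite ι]
    (C : ι → FinSg) (hC : ∀ i, ZeroSimple (C i)) (U : ι → FinSg) (j : ∀ i, U i →ₙ* C i)
    (hj : ∀ i, Injective (j i)) (f : (∀ i, U i) →ₙ* S) (hf : Surjective f) :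
    ∃ (T : Dig S → FinSg) (V : ∀ D, Subsemigroup (T D)), (∀ D, ZeroSimple (T D) ∧
      Nat.card (T D) ≤ Sys.hpsB (Nat.card S)) ∧ ∃ g : (∀ D, V D) →ₙ* S, Surjective g := by
  have := Fintype.ofFinite ι
  choose x hx using hf
  choose z hz using fun i => zs_of_zeroSimple (hC i)
  let y : ∀ i, S → C i := fun i s => j i (x s i)
  let dg : ι → Dig S := fun i => digOf (z i) (y i)
  let Y : Sys S :=
    { F := fun u => f fun i => ev (fun s => x s i) (u (dg i))
      Str := fun D p p' => ∀ i, dg i = D → ev (y i) p = ev (y i) p'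
      F_mul := by
        intro u v
        rw [← map_mul]
        congr 1
        funext i
        exact ev_mul _ _ _
      F_one := fun s => hx s
      Str_eqv := fun D => ⟨fun _ _ _ => rfl, fun h i hi => (h i hi).symm,
        fun h h' i hi => (h i hi).trans (h' i hi)⟩
      F_str := by
        intro D p p' h u
        congr 1
        funext i
        by_cases hi : dg i = D
        · have h1 := h i hi
          rw [hi, update_self, update_self]
          apply hj i
          rw [map_ev, map_ev]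
          exact h1
        · rw [update_of_ne hi, update_of_ne hi]
      Str_zero := by
        rintro D p p' hp hp' i rfl
        have h1 : ev (y i) p = z i := by
          by_contra h; exact hp ((ev_ne_iff (hz i) (y i) p).1 h)
        have h2 : ev (y i) p' = z i := by
          by_contra h; exact hp' ((ev_ne_iff (hz i) (y i) p').1 h)
        rw [h1, h2]
      Str_pump := by
        intro D c hc ha
        let t := ∑ i, Nat.card (C i)
        refine ⟨t.factorial - 1, ?_⟩
        rintro p hp i rfl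
        refine ev_pump (hz i) (y i) hc ha (npw_idem ?_ _) p hp
        exact Finset.single_le_sum (f := fun i => Nat.card (C i)) (fun _ _ => Nat.zero_le _)
          (Finset.mem_univ i) }
  refine ⟨fun D => ⟨(Y.rc D).M, inferInstance, inferInstance, ⟨RM.zero _⟩⟩,
    fun D => (Y.rc D).U, ?_, Y.f', Y.f'_surj⟩
  intro D
  exact ⟨zeroSimple_of_zs (Y.rc D).P_zs, (Y.rc D).card_rm (Y.card_Q D)⟩

end

section
open Function W Classical

section words
variable {S : Type}

/-- vertices and arcs of a word -/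
def arcs : W S → Dig S
  | one s => (fun x => x = s, fun _ _ => False)
  | snoc w t => (fun x => (arcs w).1 x ∨ x = t, fun x y => (arcs w).2 x y ∨ (x = last w ∧ y = t))

theorem path_last {D : Dig S} {w : W S} (h : path D w) : D.1 (last w) := by
  cases w with
  | one s => exact h
  | snoc w t => exact h.2.2.1

theorem arcs_le_iff {D : Dig S} (w : W S) : arcs w ≤ D ↔ path D w := by
  induction w with
  | one s =>
    constructor
    · rintro ⟨h1, -⟩
      exact h1 s rfl
    · intro h
      refine ⟨fun x hx => ?_, fun x y hxy => hxy.elim⟩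
      have hx' : x = s := hx
      rw [hx']; exact h
  | snoc w t ih =>
    constructor
    · rintro ⟨h1, h2⟩
      have h3 : path D w := ih.1 ⟨fun x hx => h1 x (Or.inl hx), fun x y hxy => h2 x y (Or.inl hxy)⟩
      exact ⟨h3, path_last h3, h1 t (Or.inr rfl), h2 _ _ (Or.inr ⟨rfl, rfl⟩)⟩
    · rintro ⟨h1, h2, h3, h4⟩
      have h5 := ih.2 h1
      refine ⟨fun x hx => ?_, fun x y hxy => ?_⟩
      · rcases hx with hx | hx
        · exact h5.1 x hx
        · rw [hx]; exact h3
      · rcases hxy with hxy | ⟨hx, hy⟩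
        · exact h5.2 x y hxy
        · rw [hx, hy]; exact h4

theorem path_mono {E D : Dig S} (h : E ≤ D) {w : W S} (hw : path E w) : path D w :=
  (arcs_le_iff w).1 (((arcs_le_iff w).2 hw).trans h)

theorem arc_mono {E D : Dig S} (h : E ≤ D) {s t : S} (hw : arc E s t) : arc D s t :=
  ⟨h.1 s hw.1, h.1 t hw.2.1, h.2 s t hw.2.2⟩

/-- value of a word in `S` -/
def val [Semigroup S] (w : W S) : S := ev (fun s => s) w

end words

section pw
variable {M : Type} [Semigroup M]

theorem npw_npw (b : M) (m k : ℕ) : npw (npw b m) k = npw b (m * k + m + k) := by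
  induction k with
  | zero => simp [npw]
  | succ k ih =>
    show npw (npw b m) k * npw b m = _
    rw [ih, npw_add]
    congr 1
    ring

theorem absorb {a b : M} {m k : ℕ} (h1 : a * npw b m = a)
    (h2 : npw b k * npw b k = npw b k) : a * npw b k = a := by
  have h3 : ∀ j, a * npw (npw b m) j = a := by
    intro j
    induction j with
    | zero => exact h1
    | succ j ih =>
      show a * (npw (npw b m) j * npw b m) = a
      rw [← mul_assoc, ih, h1]
  have h4 : ∀ j, npw (npw b k) j = npw b k := by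
    intro j
    induction j with
    | zero => rfl
    | succ j ih =>
      show npw (npw b k) j * npw b k = _
      rw [ih, h2]
  have h5 := h3 k
  rw [npw_npw, show m * k + m + k = k * m + k + m by ring, ← npw_npw, h4] at h5
  exact h5

theorem coe_npw (c : Con M) (b : M) (k : ℕ) : ((npw b k : M) : c.Quotient) = npw (b : c.Quotient) k := by
  induction k with
  | zero => rfl
  | succ k ih =>
    show ((npw b k * b : M) : c.Quotient) = npw (b : c.Quotient) k * (b : c.Quotient)
    rw [Con.coe_mul, ih]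

end pw

section kap
variable {S : Type} [Semigroup S]

/-- admissible congruences for a digraph -/
def Adm (E : Dig S) (c : Con (W S)) : Prop :=
  (∀ p p', ¬ path E p → ¬ path E p' → c p p') ∧
  (∀ a s t, c (a * (one s * one t)) (a * one (s * t))) ∧
  (∀ a s t, c (one s * one t * a) (one (s * t) * a)) ∧
  ∀ w, path E w → arc E (last w) (head w) → ∀ k, c (npw w k * npw w k) (npw w k) →
    c (one (last w) * npw w k) (one (last w))

/-- the least admissible congruence -/
def kap (E : Dig S) : Con (W S) := sInf {c | Adm E c}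

theorem kap_iff {E : Dig S} {p p' : W S} : kap E p p' ↔ ∀ c, Adm E c → c p p' := Iff.rfl

theorem kap_adm (E : Dig S) : Adm E (kap E) := by
  refine ⟨?_, ?_, ?_, ?_⟩
  · intro p p' h h' c hc
    exact hc.1 p p' h h'
  · intro a s t c hc
    exact hc.2.1 a s t
  · intro a s t c hc
    exact hc.2.2.1 a s t
  · intro w h1 h2 k h3 c hc
    exact hc.2.2.2 w h1 h2 k (kap_iff.1 h3 c hc)

theorem kap_val (E : Dig S) (a w : W S) : kap E (a * w) (a * one (val w)) := by
  induction w with
  | one s => exact (kap E).refl _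
  | snoc v s ih =>
    have h1 : kap E (a * v * one s) (a * one (val v) * one s) :=
      (kap E).mul ih ((kap E).refl _)
    have h2 : kap E (a * (one (val v) * one s)) (a * one (val v * s)) := (kap_adm E).2.1 a _ s
    rw [← mul_assoc] at h2
    exact (kap E).trans h1 h2

theorem kap_val_left (E : Dig S) (a w : W S) : kap E (w * a) (one (val w) * a) := by
  induction w generalizing a with
  | one s => exact (kap E).refl _
  | snoc v s ih =>
    have h1 : kap E (v * (one s * a)) (one (val v) * (one s * a)) := ih _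
    have h2 : kap E (one (val v) * one s * a) (one (val v * s) * a) := (kap_adm E).2.2.1 a _ s
    rw [← mul_assoc, ← mul_assoc] at h1
    exact (kap E).trans h1 h2

theorem kap_short (E : Dig S) : Surjective (fun x : S ⊕ (S × S) =>
    ((Sum.elim (fun s => one s) (fun p => one p.1 * one p.2) x : W S) : (kap E).Quotient)) := by
  intro q
  induction q using Con.induction_on with
  | H w =>
    by_cases hw : Long w
    · obtain ⟨s, v, rfl⟩ := hw.split
      exact ⟨Sum.inr (s, val v), (kap E).eq.2 ((kap E).symm (kap_val E (one s) v))⟩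
    · cases w with
      | one s => exact ⟨Sum.inl s, rfl⟩
      | snoc w s => exact absurd trivial hw

instance [Finite S] (E : Dig S) : Finite (kap E).Quotient := Finite.of_surjective _ (kap_short E)

theorem card_kap [Finite S] (E : Dig S) :
    Nat.card (kap E).Quotient ≤ Nat.card S + Nat.card S * Nat.card S := by
  have h := Nat.card_le_card_of_surjective _ (kap_short E)
  rwa [Nat.card_sum, Nat.card_prod] at h

end kap

/-- data extracted from an embedding of `S` in a homomorphic image of a product of subsemigroups of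
0-simple semigroups -/
structure Sys2 (S T : Type) [Semigroup S] [Semigroup T] where
  h : Dig S → W S → T
  h_mul : ∀ E u v, h E (u * v) = h E u * h E v
  h_r : ∀ E w s t, h E (w * (one s * one t)) = h E (w * one (s * t))
  h_l : ∀ E w s t, h E (one s * one t * w) = h E (one (s * t) * w)
  h_arcs : ∀ E w, h E w = h (E ⊔ arcs w) w
  h_pump : ∀ c, ∃ k, ∀ E, path E c → arc E (last c) (head c) →
    h E (one (last c) * npw c k) = h E (one (last c))

namespace Sys2
variable {S T : Type} [Semigroup S] [Semigroup T] (Y : Sys2 S T)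

/-- the digraphs which may be added for free -/
def Good (w : W S) (F : Dig S) : Prop := ∀ E, Y.h E w = Y.h (E ⊔ F) w

theorem good_sup {w : W S} {F F' : Dig S} (h : Y.Good w F) (h' : Y.Good w F') :
    Y.Good w (F ⊔ F') := by
  intro E
  rw [h E, h' (E ⊔ F), sup_assoc]

theorem good_max [Finite S] (w : W S) : ∃ F, Y.Good w F ∧ ∀ F', Y.Good w F' → F' ≤ F := by
  obtain ⟨m, hm⟩ := (Set.toFinite {F : Dig S | Y.Good w F}).exists_maximal
    ⟨⊥, fun E => by rw [sup_bot_eq]⟩
  refine ⟨m, hm.1, fun F' hF' => ?_⟩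
  have h1 : m ⊔ F' ≤ m := hm.2 (Y.good_sup hm.1 hF') le_sup_left
  exact le_sup_right.trans h1

/-- equality of all values above `E` -/
def Eq' (E : Dig S) (v v' : W S) : Prop := ∀ E', E ≤ E' → Y.h E' v = Y.h E' v'

def Z (E : Dig S) (v : W S) : Prop := ∃ v', ¬ path E v' ∧ Y.Eq' E v v'

/-- the congruence used to bound `kap` from above -/
def lam (E : Dig S) : Con (W S) where
  r v v' := Y.Eq' E v v' ∨ (Y.Z E v ∧ Y.Z E v')
  iseqv := by
    refine ⟨fun v => Or.inl fun _ _ => rfl, ?_, ?_⟩
    · rintro v v' (h | ⟨h, h'⟩)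
      · exact Or.inl fun E' hE => (h E' hE).symm
      · exact Or.inr ⟨h', h⟩
    · rintro v v' v'' (h | ⟨h, h'⟩) (g | ⟨g, g'⟩)
      · exact Or.inl fun E' hE => (h E' hE).trans (g E' hE)
      · obtain ⟨a, ha, hb⟩ := g
        exact Or.inr ⟨⟨a, ha, fun E' hE => (h E' hE).trans (hb E' hE)⟩, g'⟩
      · obtain ⟨a, ha, hb⟩ := h'
        exact Or.inr ⟨h, ⟨a, ha, fun E' hE => (g E' hE).symm.trans (hb E' hE)⟩⟩
      · exact Or.inr ⟨h, g'⟩
  mul' := by
    have hl : ∀ a b, Y.Z E a → Y.Z E (a * b) := by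
      rintro a b ⟨c, hc, hd⟩
      refine ⟨c * b, ?_, ?_⟩
      · rw [path_mul]; tauto
      · intro E' hE
        rw [Y.h_mul, Y.h_mul, hd E' hE]
    have hr : ∀ a b, Y.Z E b → Y.Z E (a * b) := by
      rintro a b ⟨c, hc, hd⟩
      refine ⟨a * c, ?_, ?_⟩
      · rw [path_mul]; tauto
      · intro E' hE
        rw [Y.h_mul, Y.h_mul, hd E' hE]
    rintro a b c d (h | ⟨h, h'⟩) (g | ⟨g, g'⟩)
    · exact Or.inl fun E' hE => by rw [Y.h_mul, Y.h_mul, h E' hE, g E' hE]
    · exact Or.inr ⟨hr _ _ g, hr _ _ g'⟩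
    · exact Or.inr ⟨hl _ _ h, hl _ _ h'⟩
    · exact Or.inr ⟨hl _ _ h, hl _ _ h'⟩

theorem lam_adm (E : Dig S) : Adm E (Y.lam E) := by
  refine ⟨?_, ?_, ?_, ?_⟩
  · intro p p' h h'
    exact Or.inr ⟨⟨p, h, fun _ _ => rfl⟩, ⟨p', h', fun _ _ => rfl⟩⟩
  · intro a s t
    exact Or.inl fun E' _ => Y.h_r E' a s t
  · intro a s t
    exact Or.inl fun E' _ => Y.h_l E' a s t
  · intro w h1 h2 k h3
    obtain ⟨m, hm⟩ := Y.h_pump w
    have h4 : Y.lam E (one (last w) * npw w m) (one (last w)) :=
      Or.inl fun E' hE => hm E' (path_mono hE h1) (arc_mono hE h2)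
    have h5 := (Y.lam E).eq.2 h3
    have h6 := (Y.lam E).eq.2 h4
    rw [Con.coe_mul, coe_npw] at h5
    rw [Con.coe_mul, coe_npw] at h6
    have h7 := absorb h6 h5
    rw [← coe_npw, ← Con.coe_mul] at h7
    exact (Y.lam E).eq.1 h7

theorem beta {w v : W S} {E : Dig S} (h1 : Y.Good w E) (h2 : ∀ F', Y.Good w F' → F' ≤ E)
    (hk : kap E w v) : Y.Eq' E w v := by
  rcases kap_iff.1 hk _ (Y.lam_adm E) with h | ⟨⟨v', hv', hw⟩, -⟩
  · exact h
  · exfalso
    apply hv'
    have h3 : Y.Good w (E ⊔ arcs v') := by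
      intro E1
      rw [h1 E1, hw (E1 ⊔ E) le_sup_right, Y.h_arcs (E1 ⊔ E) v', ← sup_assoc,
        hw (E1 ⊔ E ⊔ arcs v') (le_sup_right.trans le_sup_left)]
    exact (arcs_le_iff v').1 (le_sup_right.trans (h2 _ h3))

theorem main [Finite S] {w w' : W S} (hk : ∀ E, kap E w w') : Y.h ⊥ w = Y.h ⊥ w' := by
  obtain ⟨F, h1, h2⟩ := Y.good_max w
  obtain ⟨F', h1', h2'⟩ := Y.good_max w'
  have hb := Y.beta h1 h2 (hk F)
  have hb' := Y.beta h1' h2' ((kap F').symm (hk F'))
  have h3 : Y.Good w (F ⊔ F') := by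
    intro E
    rw [h1 E, hb (E ⊔ F) le_sup_right, h1' (E ⊔ F), hb' (E ⊔ F ⊔ F') le_sup_right, sup_assoc]
  have h3' : Y.Good w' (F' ⊔ F) := by
    intro E
    rw [h1' E, hb' (E ⊔ F') le_sup_right, h1 (E ⊔ F'), hb (E ⊔ F' ⊔ F) le_sup_right, sup_assoc]
  have h4 : F = F' := le_antisymm (le_sup_right.trans (h2' _ h3')) (le_sup_right.trans (h2 _ h3))
  rw [h1 ⊥, h1' ⊥, bot_sup_eq, bot_sup_eq, ← h4]
  exact hb F le_rfl

end Sys2

/-- the necessary condition extracted from an arbitrary system -/
theorem shps_nec {S : Type} [Semigroup S] [Finite S] [Nonempty S] {ι : Type} [Finite ι]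
    (C : ι → FinSg) (hC : ∀ i, ZeroSimple (C i)) (U : ι → FinSg) (j : ∀ i, U i →ₙ* C i)
    (hj : ∀ i, Injective (j i)) {T : Type} [Semigroup T] (f : (∀ i, U i) →ₙ* T)
    (hf : Surjective f) (e : S →ₙ* T) (he : Injective e) (w w' : W S)
    (hk : ∀ E, kap E w w') : val w = val w' := by
  have := Fintype.ofFinite ι
  choose x hx using fun s => hf (e s)
  choose z hz using fun i => zs_of_zeroSimple (hC i)
  let y : ∀ i, S → C i := fun i s => j i (x s i)
  let dg : ι → Dig S := fun i => digOf (z i) (y i)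
  have hζ : ∀ i, ∃ ζ : U i, ∀ E : Dig S, ¬ E ≤ dg i → j i ζ = z i := by
    intro i
    by_cases h : ∃ E : Dig S, ¬ E ≤ dg i
    · obtain ⟨E, hE⟩ := h
      by_cases h1 : ∀ s, (dg i).1 s
      · by_cases h2 : ∀ s t, (dg i).2 s t
        · exact absurd ⟨fun s _ => h1 s, fun s t _ => h2 s t⟩ hE
        · push Not at h2
          obtain ⟨s, t, hst⟩ := h2
          refine ⟨x s i * x t i, fun _ _ => ?_⟩
          rw [map_mul]
          exact not_not.1 hst
      · push Not at h1
        obtain ⟨s, hs⟩ := h1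
        exact ⟨x s i, fun _ _ => not_not.1 hs⟩
    · push Not at h
      obtain ⟨s0⟩ := ‹Nonempty S›
      exact ⟨x s0 i, fun E hE => absurd (h E) hE⟩
  choose ζ hζ using hζ
  let msk : Dig S → W S → ∀ i, U i := fun E w i =>
    if E ≤ dg i then ev (fun s => x s i) w else ζ i
  have hz0 : ∀ i (E : Dig S), ¬ E ≤ dg i → ∀ u, ζ i * u = ζ i ∧ u * ζ i = ζ i := by
    intro i E hE u
    constructor
    · apply hj i
      rw [map_mul, hζ i E hE]
      exact ((hz i).1 _).1
    · apply hj i
      rw [map_mul, hζ i E hE]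
      exact ((hz i).1 _).2
  have hevx : ∀ (v : W S) i, ev x v i = ev (fun s => x s i) v := fun v i =>
    map_ev (Pi.evalMulHom (fun i => (U i : Type)) i) x v
  have hfev : ∀ v : W S, f (ev x v) = e (val v) := by
    intro v
    rw [map_ev, val, map_ev]
    congr 1
    funext s
    exact hx s
  have hmr : ∀ E w v, msk E (w * v) = msk E w * ev x v := by
    intro E w v
    funext i
    show msk E (w * v) i = msk E w i * ev x v i
    rw [hevx]
    simp only [msk]
    split_ifs with h
    · exact ev_mul _ _ _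
    · exact ((hz0 i E h _).1).symm
  have hml : ∀ E w v, msk E (v * w) = ev x v * msk E w := by
    intro E w v
    funext i
    show msk E (v * w) i = ev x v i * msk E w i
    rw [hevx]
    simp only [msk]
    split_ifs with h
    · exact ev_mul _ _ _
    · exact ((hz0 i E h _).2).symm
  let Y : Sys2 S T :=
    { h := fun E w => f (msk E w)
      h_mul := by
        intro E u v
        rw [← map_mul]
        congr 1
        funext i
        show msk E (u * v) i = msk E u i * msk E v i
        simp only [msk]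
        split_ifs with h
        · exact ev_mul _ _ _
        · exact ((hz0 i E h _).1).symm
      h_r := by
        intro E w s t
        rw [hmr, hmr, map_mul, map_mul, hfev, hfev]
        rfl
      h_l := by
        intro E w s t
        rw [hml, hml, map_mul, map_mul, hfev, hfev]
        rfl
      h_arcs := by
        intro E w
        congr 1
        funext i
        simp only [msk]
        by_cases h : E ≤ dg i
        · by_cases h' : arcs w ≤ dg i
          · rw [if_pos h, if_pos (sup_le h h')]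
          · have h2 : ¬ E ⊔ arcs w ≤ dg i := fun h3 => h' (le_sup_right.trans h3)
            rw [if_pos h, if_neg h2]
            apply hj i
            rw [hζ i _ h2, map_ev]
            by_contra h3
            exact h' ((arcs_le_iff w).2 ((ev_ne_iff (hz i) (y i) w).1 h3))
        · have h2 : ¬ E ⊔ arcs w ≤ dg i := fun h3 => h (le_sup_left.trans h3)
          rw [if_neg h, if_neg h2]
      h_pump := by
        intro c
        let t := ∑ i, Nat.card (C i)
        refine ⟨t.factorial - 1, ?_⟩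
        intro E hc ha
        congr 1
        funext i
        simp only [msk]
        split_ifs with h
        · apply hj i
          rw [map_ev, map_ev]
          refine ev_pump (hz i) (y i) (path_mono h hc) (arc_mono h ha) (npw_idem ?_ _) _ rfl
          exact Finset.single_le_sum (f := fun i => Nat.card (C i)) (fun _ _ => Nat.zero_le _)
            (Finset.mem_univ i)
        · rfl }
  have hbot : ∀ v : W S, Y.h ⊥ v = e (val v) := by
    intro v
    rw [← hfev]
    show f (msk ⊥ v) = f (ev x v)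
    congr 1
    funext i
    rw [hevx]
    exact if_pos bot_le
  have := Y.main hk
  rw [hbot, hbot] at this
  exact he this

section new
variable {S : Type} [Semigroup S] [Finite S]

/-- the right congruence attached to `kap` -/
noncomputable def rcK (D : Dig S) : RC S D where
  R := { r := fun p p' => last p = last p' ∧ kap D p p'
         iseqv := ⟨fun _ => ⟨rfl, (kap D).refl _⟩, fun h => ⟨h.1.symm, (kap D).symm h.2⟩,
          fun h h' => ⟨h.1.trans h'.1, (kap D).trans h.2 h'.2⟩⟩ }
  R_last := fun _ _ h => h.1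
  R_snoc := fun p p' s h => ⟨rfl, (kap D).mul h.2 ((kap D).refl (one s))⟩
  R_pump := by
    intro c hc ha
    obtain ⟨k, hk⟩ := exists_idem_npw (c : (kap D).Quotient)
    refine ⟨k, fun p hp => ⟨by rw [last_mul, Sys.last_npw, hp], ?_⟩⟩
    rw [← coe_npw, ← Con.coe_mul] at hk
    have h1 := (kap_adm D).2.2.2 c hc ha k ((kap D).eq.1 hk)
    cases p with
    | one s =>
      have hs : s = last c := hp
      rw [hs]; exact h1
    | snoc p s =>
      have hs : s = last c := hp
      have h2 : kap D (p * (one (last c) * npw c k)) (p * one (last c)) :=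
        (kap D).mul ((kap D).refl p) h1
      rw [hs]
      rw [← mul_assoc] at h2
      exact h2

theorem rcK_inj (D : Dig S) : Injective (fun q : (rcK D).Q =>
    (last (Quotient.out q), ((Quotient.out q : W S) : (kap D).Quotient))) := by
  intro q q' h
  have h1 : last (Quotient.out q) = last (Quotient.out q') := congrArg Prod.fst h
  have h2 : kap D (Quotient.out q) (Quotient.out q') := (kap D).eq.1 (congrArg Prod.snd h)
  have h3 := Quotient.sound (s := (rcK D).R) ⟨h1, h2⟩
  have e : ∀ q : (rcK D).Q, Quotient.mk (rcK D).R (Quotient.out q) = q := fun q =>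
    Quotient.out_eq q
  rwa [e, e] at h3

instance (D : Dig S) : Finite (rcK D).Q := Finite.of_injective _ (rcK_inj D)

theorem card_rcK (D : Dig S) :
    Nat.card (rcK D).Q ≤ Nat.card S * (Nat.card S + Nat.card S * Nat.card S) := by
  refine (Nat.card_le_card_of_injective _ (rcK_inj D)).trans ?_
  rw [Nat.card_prod]
  exact Nat.mul_le_mul_left _ (card_kap D)

theorem kap_of_ev {D : Dig S} {w w' : W S} (h : ev (rcK D).gen w = ev (rcK D).gen w') :
    kap D w w' := by
  by_cases hw : path D w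
  · exact ((rcK D).R_of_ev hw ((rcK D).path_iff_of_ev h hw) h).2.2
  · exact (kap_adm D).1 _ _ hw fun hw' => hw ((rcK D).path_iff_of_ev h.symm hw')

/-- a word representing an element of the new factor -/
noncomputable def wd {D : Dig S} (z : (rcK D).U) : W S := z.2.choose

theorem wd_spec {D : Dig S} (z : (rcK D).U) : ev (rcK D).gen (wd z) = z.1 := z.2.choose_spec

theorem wd_mul {D : Dig S} (z z' : (rcK D).U) : kap D (wd (z * z')) (wd z * wd z') := by
  apply kap_of_ev
  rw [wd_spec, ev_mul, wd_spec, wd_spec]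
  rfl

/-- tuples represented by one word of value `r` -/
def Cr (r : S) (z : ∀ D : Dig S, (rcK D).U) : Prop := ∃ w, val w = r ∧ ∀ D, kap D (wd (z D)) w

theorem cr_congr {r : S} {z z' : ∀ D : Dig S, (rcK D).U} (h : ∀ D, kap D (wd (z D)) (wd (z' D)))
    (hz : Cr r z') : Cr r z := by
  obtain ⟨w, hw, hw'⟩ := hz
  exact ⟨w, hw, fun D => (kap D).trans (h D) (hw' D)⟩

theorem cr_unique (hM : ∀ w w' : W S, (∀ D, kap D w w') → val w = val w') {r r' : S}
    {z : ∀ D : Dig S, (rcK D).U} (h : Cr r z) (h' : Cr r' z) : r = r' := by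
  obtain ⟨w, rfl, hw⟩ := h
  obtain ⟨w', rfl, hw'⟩ := h'
  exact hM w w' fun D => (kap D).trans ((kap D).symm (hw D)) (hw' D)

/-- the congruence on the product of the new factors -/
def psi (hM : ∀ w w' : W S, (∀ D, kap D w w') → val w = val w') :
    Con (∀ D : Dig S, (rcK D).U) where
  r z z' := (∀ D, kap D (wd (z D)) (wd (z' D))) ∨ ∃ r, Cr r z ∧ Cr r z'
  iseqv := by
    refine ⟨fun z => Or.inl fun D => (kap D).refl _, ?_, ?_⟩
    · rintro z z' (h | ⟨r, h, h'⟩)
      · exact Or.inl fun D => (kap D).symm (h D)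
      · exact Or.inr ⟨r, h', h⟩
    · rintro z z' z'' (h | ⟨r, h, h'⟩) (g | ⟨r', g, g'⟩)
      · exact Or.inl fun D => (kap D).trans (h D) (g D)
      · exact Or.inr ⟨r', cr_congr h g, g'⟩
      · exact Or.inr ⟨r, h, cr_congr (fun D => (kap D).symm (g D)) h'⟩
      · have := cr_unique hM h' g
        subst this
        exact Or.inr ⟨r, h, g'⟩
  mul' := by
    have key : ∀ a b c d : ∀ D : Dig S, (rcK D).U,
        ((∀ D, kap D (wd (a D)) (wd (b D))) ∨ ∃ r, Cr r a ∧ Cr r b) →
        ((∀ D, kap D (wd (c D)) (wd (d D))) ∨ ∃ r, Cr r c ∧ Cr r d) →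
        ∀ D, kap D (wd ((a * c) D)) (wd ((b * d) D)) := by
      intro a b c d h g D
      have h1 : ∀ x : W S, kap D (wd (a D) * x) (wd (b D) * x) := by
        intro x
        rcases h with h | ⟨r, ⟨w, hw, hw'⟩, ⟨v, hv, hv'⟩⟩
        · exact (kap D).mul (h D) ((kap D).refl x)
        · have e1 : kap D (wd (a D) * x) (w * x) := (kap D).mul (hw' D) ((kap D).refl x)
          have e2 : kap D (wd (b D) * x) (v * x) := (kap D).mul (hv' D) ((kap D).refl x)
          have e3 := kap_val_left D x w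
          have e4 := kap_val_left D x v
          rw [hw] at e3
          rw [hv] at e4
          exact (kap D).trans e1 ((kap D).trans e3 ((kap D).trans ((kap D).symm e4)
            ((kap D).symm e2)))
      have h2 : ∀ x : W S, kap D (x * wd (c D)) (x * wd (d D)) := by
        intro x
        rcases g with g | ⟨r, ⟨w, hw, hw'⟩, ⟨v, hv, hv'⟩⟩
        · exact (kap D).mul ((kap D).refl x) (g D)
        · have e1 : kap D (x * wd (c D)) (x * w) := (kap D).mul ((kap D).refl x) (hw' D)
          have e2 : kap D (x * wd (d D)) (x * v) := (kap D).mul ((kap D).refl x) (hv' D)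
          have e3 := kap_val D x w
          have e4 := kap_val D x v
          rw [hw] at e3
          rw [hv] at e4
          exact (kap D).trans e1 ((kap D).trans e3 ((kap D).trans ((kap D).symm e4)
            ((kap D).symm e2)))
      exact (kap D).trans (wd_mul _ _) ((kap D).trans (h1 _) ((kap D).trans (h2 _)
        ((kap D).symm (wd_mul _ _))))
    intro a b c d h g
    exact Or.inl (key a b c d h g)

/-- the diagonal -/
noncomputable def dgl (s : S) : ∀ D : Dig S, (rcK D).U :=
  fun D => ⟨ev (rcK D).gen (one s), one s, rfl⟩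

theorem cr_dgl (s : S) : Cr s (dgl s) := ⟨one s, rfl, fun _ => kap_of_ev (wd_spec _)⟩

theorem cr_mul {z z' : ∀ D : Dig S, (rcK D).U} {r r' : S} (h : Cr r z) (h' : Cr r' z') :
    Cr (r * r') (z * z') := by
  obtain ⟨w, rfl, hw⟩ := h
  obtain ⟨w', rfl, hw'⟩ := h'
  refine ⟨w * w', ?_, fun D => (kap D).trans (wd_mul _ _) ((kap D).mul (hw D) (hw' D))⟩
  unfold val
  exact ev_mul _ _ _

/-- the bound for the sizes of the factors -/
def shpsB (n : ℕ) : ℕ := RC.rmB n (n * (n + n * n))

/-- Reduction for `SHPS`. -/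
theorem shps_suf [Nonempty S] (hM : ∀ w w' : W S, (∀ D, kap D w w') → val w = val w') :
    ∃ (T : Dig S → FinSg) (V : ∀ D, Subsemigroup (T D)), (∀ D, ZeroSimple (T D) ∧
      Nat.card (T D) ≤ shpsB (Nat.card S)) ∧ ∃ (R : FinSg) (g : (∀ D, V D) →ₙ* R)
        (e : S →ₙ* R), Surjective g ∧ Injective e := by
  obtain ⟨s0⟩ := ‹Nonempty S›
  have : Nonempty S := ⟨s0⟩
  refine ⟨fun D => ⟨(rcK D).M, inferInstance, inferInstance, ⟨RM.zero _⟩⟩,
    fun D => (rcK D).U, ?_, ⟨(psi hM).Quotient, inferInstance, Quotient.finite _,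
      ⟨((dgl s0 : ∀ D : Dig S, (rcK D).U) : (psi hM).Quotient)⟩⟩,
      ⟨fun z => (z : (psi hM).Quotient), fun _ _ => rfl⟩,
      ⟨fun s => ((dgl s : ∀ D : Dig S, (rcK D).U) : (psi hM).Quotient), ?_⟩, ?_, ?_⟩
  · intro D
    exact ⟨zeroSimple_of_zs (rcK D).P_zs, (rcK D).card_rm (card_rcK D)⟩
  · intro s t
    rw [← Con.coe_mul]
    apply (psi hM).eq.2
    exact Or.inr ⟨s * t, cr_dgl _, cr_mul (cr_dgl s) (cr_dgl t)⟩
  · intro q
    induction q using Con.induction_on with
    | H z => exact ⟨z, rfl⟩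
  · intro s t h
    rcases (psi hM).eq.1 h with h | ⟨r, h1, h2⟩
    · exact cr_unique hM (cr_dgl s) (cr_congr h (cr_dgl t))
    · rw [cr_unique hM (cr_dgl s) h1, cr_unique hM (cr_dgl t) h2]

end new

end

section
section prim
open Primrec

theorem powPrim : Primrec₂ (fun a b : ℕ => a ^ b) := by
  refine (Primrec.nat_rec (f := fun _ : ℕ => 1) (g := fun a (p : ℕ × ℕ) => p.2 * a)
    (Primrec.const 1) ?_).of_eq ?_
  · exact (Primrec.nat_mul.comp (snd.comp snd) fst)
  · intro a n
    induction n with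
    | zero => rfl
    | succ n ih => rw [pow_succ, ← ih]

/-- terms of bounded arithmetic with a table -/
inductive Tm : Type
  | v (i : ℕ)
  | c (n : ℕ)
  | add (a b : Tm)
  | mul (a b : Tm)
  | div (a b : Tm)
  | mod (a b : Tm)
  | pow (a b : Tm)
  | lk (a : Tm)

def Tm.ev (l e : List ℕ) : Tm → ℕ
  | v i => e.getD i 0
  | c n => n
  | add a b => a.ev l e + b.ev l e
  | mul a b => a.ev l e * b.ev l e
  | div a b => a.ev l e / b.ev l e
  | mod a b => a.ev l e % b.ev l e
  | pow a b => a.ev l e ^ b.ev l e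
  | lk a => l.getD (a.ev l e) 0

theorem Tm.prim (t : Tm) : Primrec fun p : List ℕ × List ℕ => t.ev p.1 p.2 := by
  induction t with
  | v i => exact (Primrec.list_getD 0).comp snd (Primrec.const i)
  | c n => exact Primrec.const n
  | add a b iha ihb => exact Primrec.nat_add.comp iha ihb
  | mul a b iha ihb => exact Primrec.nat_mul.comp iha ihb
  | div a b iha ihb => exact Primrec.nat_div.comp iha ihb
  | mod a b iha ihb => exact Primrec.nat_mod.comp iha ihb
  | pow a b iha ihb => exact powPrim.comp iha ihb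
  | lk a ih => exact (Primrec.list_getD 0).comp fst ih

/-- bounded formulas; a quantifier appends its variable at the end of the environment -/
inductive Fm : Type
  | eq (a b : Tm)
  | lt (a b : Tm)
  | and (f g : Fm)
  | imp (f g : Fm)
  | not (f : Fm)
  | all (b : Tm) (f : Fm)
  | ex (b : Tm) (f : Fm)

def Fm.ho (l : List ℕ) : Fm → List ℕ → Prop
  | eq a b, e => a.ev l e = b.ev l e
  | lt a b, e => a.ev l e < b.ev l e
  | and f g, e => f.ho l e ∧ g.ho l e
  | imp f g, e => f.ho l e → g.ho l e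
  | not f, e => ¬ f.ho l e
  | all b f, e => ∀ x < b.ev l e, f.ho l (e ++ [x])
  | ex b f, e => ∃ x < b.ev l e, f.ho l (e ++ [x])

theorem allLt {α : Type} [Primcodable α] {f : α → ℕ} {P : α → ℕ → Prop} (hf : Primrec f)
    (hP : PrimrecPred fun p : α × ℕ => P p.1 p.2) : PrimrecPred (fun a => ∀ x < f a, P a x) := by
  have hR : PrimrecRel (fun (x : ℕ) (a : α) => P a x) := hP.comp (snd.pair fst)
  exact ((PrimrecRel.forall_mem_list hR).comp (Primrec.list_range.comp hf) Primrec.id).of_eq
    (fun a => by simp)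

theorem exLt {α : Type} [Primcodable α] {f : α → ℕ} {P : α → ℕ → Prop} (hf : Primrec f)
    (hP : PrimrecPred fun p : α × ℕ => P p.1 p.2) : PrimrecPred (fun a => ∃ x < f a, P a x) := by
  have hR : PrimrecRel (fun (x : ℕ) (a : α) => P a x) := hP.comp (snd.pair fst)
  exact ((PrimrecRel.exists_mem_list hR).comp (Primrec.list_range.comp hf) Primrec.id).of_eq
    (fun a => by simp)

theorem Fm.prim (f : Fm) : PrimrecPred fun p : List ℕ × List ℕ => f.ho p.1 p.2 := by
  have happ : Primrec fun q : (List ℕ × List ℕ) × ℕ => (q.1.1, q.1.2 ++ [q.2]) :=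
    (fst.comp fst).pair (Primrec.list_concat.comp (snd.comp fst) snd)
  induction f with
  | eq a b => exact Primrec.eq.comp a.prim b.prim
  | lt a b => exact Primrec.nat_lt.comp a.prim b.prim
  | and f g ihf ihg => exact ihf.and ihg
  | imp f g ihf ihg => exact (ihf.not.or ihg).of_eq (fun p => by simp only [Fm.ho]; tauto)
  | not f ih => exact ih.not
  | all b f ih => exact allLt b.prim (ih.comp happ)
  | ex b f ih => exact exLt b.prim (ih.comp happ)

end prim

theorem exists_digits (N : ℕ) : ∀ (n : ℕ) (f : ℕ → ℕ), (∀ i < n, f i < N) →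
    ∃ m < N ^ n, ∀ i < n, m / N ^ i % N = f i := by
  intro n
  induction n with
  | zero => intro f _; exact ⟨0, by simp, by simp⟩
  | succ n ih =>
    intro f hf
    obtain ⟨m, hm, hd⟩ := ih f (fun i hi => hf i (by omega))
    have hN : 0 < N := lt_of_le_of_lt (Nat.zero_le _) (hf n (Nat.lt_succ_self n))
    refine ⟨m + f n * N ^ n, ?_, ?_⟩
    · have h1 := hf n (Nat.lt_succ_self n)
      have h2 : (f n + 1) * N ^ n ≤ N * N ^ n := Nat.mul_le_mul_right _ h1
      rw [pow_succ, mul_comm (N ^ n) N]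
      rw [add_mul, one_mul] at h2
      omega
    · intro i hi
      rcases Nat.lt_succ_iff_lt_or_eq.1 hi with h | h
      · have h3 : f n * N ^ n = N ^ i * (N * (f n * N ^ (n - i - 1))) := by
          have : N ^ n = N ^ i * (N * N ^ (n - i - 1)) := by
            rw [← pow_succ', ← pow_add]; congr 1; omega
          rw [this]; ring
        rw [h3, Nat.add_mul_div_left _ _ (pow_pos hN i), Nat.add_mul_mod_self_left]
        exact hd i h
      · subst h
        rw [Nat.add_mul_div_right _ _ (pow_pos hN i), Nat.div_eq_of_lt hm, zero_add]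
        exact Nat.mod_eq_of_lt (hf i (Nat.lt_succ_self i))

end

section
open Function

/-- uniform form of membership: exactly `K` factors, each a subsemigroup of a 0-simple semigroup
of size at most `B` -/
def Core (full : Prop) (K B : ℕ) (S : FinSg) : Prop :=
  ∃ (T : Fin K → FinSg) (U : ∀ i, Subsemigroup (T i)),
    (∀ i, ZeroSimple (T i) ∧ Nat.card (T i) ≤ B ∧ (full → U i = ⊤)) ∧
      ∃ f : (∀ i, U i) →ₙ* S, Surjective f

theorem digits_unique (N : ℕ) : ∀ (n m m' : ℕ), m < N ^ n → m' < N ^ n →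
    (∀ i < n, m / N ^ i % N = m' / N ^ i % N) → m = m' := by
  intro n
  induction n with
  | zero => intro m m' h1 h2 _; simp at h1 h2; omega
  | succ n ih =>
    intro m m' h1 h2 h3
    have hN : 0 < N := by
      rcases Nat.eq_zero_or_pos N with h | h
      · subst h; simp at h1
      · exact h
    have h4 : m / N = m' / N := by
      apply ih
      · rw [Nat.div_lt_iff_lt_mul hN, ← pow_succ]; exact h1
      · rw [Nat.div_lt_iff_lt_mul hN, ← pow_succ]; exact h2
      · intro i hi
        have := h3 (i + 1) (by omega)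
        rw [Nat.div_div_eq_div_mul, Nat.div_div_eq_div_mul, ← pow_succ']
        exact this
    have h5 : m % N = m' % N := by
      have := h3 0 (by omega)
      simpa using this
    rw [← Nat.div_add_mod m N, ← Nat.div_add_mod m' N, h4, h5]

/-- the numerical condition -/
def NumOK (mu : ℕ → ℕ → ℕ) (n K B fl : ℕ) (s : ℕ → ℕ) (T : ℕ → ℕ → ℕ → ℕ) (u : ℕ → ℕ → ℕ)
    (g : ℕ → ℕ) : Prop :=
  (∀ i < K, s i < B + 1 ∧ (∀ a < s i, ∀ b < s i, T i a b < s i) ∧
    (∀ a < s i, ∀ b < s i, ∀ c < s i, T i (T i a b) c = T i a (T i b c)) ∧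
    (∃ z < s i, (∀ x < s i, T i z x = z ∧ T i x z = z) ∧
      (∃ x < s i, ∃ y < s i, ¬ T i x y = z) ∧
      ∀ a < s i, ¬ a = z → ∀ b < s i, ∃ x < s i, ∃ y < s i, T i (T i x a) y = b) ∧
    (∀ a < s i, ∀ b < s i, u i a = 1 → u i b = 1 → u i (T i a b) = 1) ∧
    (fl = 1 → ∀ a < s i, u i a = 1)) ∧
  (∀ t < B ^ K, (∀ i < K, t / B ^ i % B < s i ∧ u i (t / B ^ i % B) = 1) → g t < n ∧
    ∀ t' < B ^ K, (∀ i < K, t' / B ^ i % B < s i ∧ u i (t' / B ^ i % B) = 1) →
      ∀ t'' < B ^ K, (∀ i < K, t'' / B ^ i % B = T i (t / B ^ i % B) (t' / B ^ i % B)) →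
        g t'' = mu (g t) (g t')) ∧
  ∀ x < n, ∃ t < B ^ K, (∀ i < K, t / B ^ i % B < s i ∧ u i (t / B ^ i % B) = 1) ∧ g t = x

/-- the semigroup on `{a // a < m}` with a given multiplication -/
def natSg (m : ℕ) (T : ℕ → ℕ → ℕ) (h1 : ∀ a < m, ∀ b < m, T a b < m)
    (h2 : ∀ a < m, ∀ b < m, ∀ c < m, T (T a b) c = T a (T b c)) (h3 : ∃ z, z < m) : FinSg where
  carrier := {a : ℕ // a < m}
  sg := { mul := fun a b => ⟨T a b, h1 a a.2 b b.2⟩
          mul_assoc := fun a b c => Subtype.ext (h2 a a.2 b b.2 c c.2) }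
  fin := Finite.of_equiv _ Fin.equivSubtype
  ne := by obtain ⟨z, hz⟩ := h3; exact ⟨⟨z, hz⟩⟩

theorem core_of_num {n : ℕ} {l : List ℕ} (h : IsTable n l) {K B fl : ℕ} {s : ℕ → ℕ}
    {T : ℕ → ℕ → ℕ → ℕ} {u : ℕ → ℕ → ℕ} {g : ℕ → ℕ}
    (H : NumOK (tmul n l) n K B fl s T u g) : Core (fl = 1) K B (tableSg n l h) := by
  obtain ⟨H1, H2, H3⟩ := H
  let C : Fin K → FinSg := fun i => natSg (s i) (T i) (H1 i i.2).2.1 (H1 i i.2).2.2.1
    ((H1 i i.2).2.2.2.1.imp fun _ h => h.1)
  let val : ∀ i, C i → ℕ := fun i x => Subtype.val (p := fun a => a < s i) x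
  have hvlt : ∀ i x, val i x < s i := fun i x => Subtype.property (p := fun a => a < s i) x
  have hvmul : ∀ i x y, val i (x * y) = T i (val i x) (val i y) := fun i x y => rfl
  have hvinj : ∀ i x y, val i x = val i y → x = y := fun i x y h => Subtype.ext h
  have hvsurj : ∀ i : Fin K, ∀ a < s i, ∃ x, val i x = a := fun i a ha => ⟨⟨a, ha⟩, rfl⟩
  let U : ∀ i, Subsemigroup (C i) := fun i =>
    { carrier := {a | u i (val i a) = 1}
      mul_mem' := fun {a b} ha hb => (H1 _ i.2).2.2.2.2.1 _ (hvlt i a) _ (hvlt i b) ha hb }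
  have hcode : ∀ w : (∀ i, U i), ∃ t < B ^ K, ∀ i : Fin K, t / B ^ (i : ℕ) % B =
      val i (w i).1 := by
    intro w
    obtain ⟨m, hm, hd⟩ := exists_digits B K
      (fun j => if hj : j < K then val ⟨j, hj⟩ (w ⟨j, hj⟩).1 else 0) (by
        intro i hi
        rw [dif_pos hi]
        have h1 := hvlt ⟨i, hi⟩ (w ⟨i, hi⟩).1
        have h2 := (H1 i hi).1
        exact lt_of_lt_of_le h1 (Nat.lt_succ_iff.1 h2))
    refine ⟨m, hm, fun i => ?_⟩
    rw [hd i i.2, dif_pos i.2]
  choose code hcode1 hcode2 using hcode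
  have hval : ∀ w : (∀ i, U i), ∀ i < K, code w / B ^ i % B < s i ∧
      u i (code w / B ^ i % B) = 1 := by
    intro w i hi
    have h1 := hcode2 w ⟨i, hi⟩
    simp only at h1
    rw [h1]
    exact ⟨hvlt ⟨i, hi⟩ _, (w ⟨i, hi⟩).2⟩
  let F : (∀ i, U i) → tableSg n l h := fun w =>
    (⟨g (code w), (H2 _ (hcode1 w) (hval w)).1⟩ : Fin n)
  have hF : ∀ w w', F (w * w') = F w * F w' := by
    intro w w'
    apply Fin.ext
    show g (code (w * w')) = tmul n l (g (code w)) (g (code w'))
    refine (H2 _ (hcode1 w) (hval w)).2 _ (hcode1 w') (hval w') _ (hcode1 (w * w')) ?_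
    intro i hi
    have h1 := hcode2 w ⟨i, hi⟩
    have h2 := hcode2 w' ⟨i, hi⟩
    have h3 := hcode2 (w * w') ⟨i, hi⟩
    simp only at h1 h2 h3
    rw [h1, h2, h3]
    exact hvmul ⟨i, hi⟩ _ _
  have hFs : Surjective F := by
    intro (x : Fin n)
    obtain ⟨t, ht, hv, hg⟩ := H3 x x.2
    choose w hw using fun i : Fin K => hvsurj i _ (hv i i.2).1
    have hwU : ∀ i, w i ∈ U i := by
      intro i
      show u i (val i (w i)) = 1
      rw [hw]
      exact (hv i i.2).2
    refine ⟨fun i => ⟨w i, hwU i⟩, Fin.ext ?_⟩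
    show g (code _) = x
    rw [← hg]
    congr 1
    apply digits_unique B K _ _ (hcode1 _) ht
    intro i hi
    exact (hcode2 _ ⟨i, hi⟩).trans (hw ⟨i, hi⟩)
  refine ⟨C, U, ?_, ⟨F, hF⟩, hFs⟩
  intro i
  refine ⟨?_, ?_, ?_⟩
  · obtain ⟨z, hz, hz1, ⟨x, hx, y, hy, hxy⟩, hz3⟩ := (H1 i i.2).2.2.2.1
    obtain ⟨z', rfl⟩ := hvsurj i z hz
    refine zeroSimple_of_zs (z := z') ⟨?_, ?_, ?_⟩
    · intro x
      have := hz1 _ (hvlt i x)
      exact ⟨hvinj i _ _ (by rw [hvmul]; exact this.1), hvinj i _ _ (by rw [hvmul]; exact this.2)⟩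
    · obtain ⟨x', rfl⟩ := hvsurj i x hx
      obtain ⟨y', rfl⟩ := hvsurj i y hy
      exact ⟨x', y', fun h => hxy (by rw [← hvmul, h])⟩
    · intro a ha b
      obtain ⟨x, hx, y, hy, hxy⟩ := hz3 _ (hvlt i a) (fun h => ha (hvinj i _ _ h)) _ (hvlt i b)
      obtain ⟨x', rfl⟩ := hvsurj i x hx
      obtain ⟨y', rfl⟩ := hvsurj i y hy
      exact ⟨x', y', hvinj i _ _ (by rw [hvmul, hvmul, hxy])⟩
  · show Nat.card {a : ℕ // a < s i} ≤ B
    rw [← Nat.card_congr (Fin.equivSubtype (n := s i)), Nat.card_fin]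
    exact Nat.lt_succ_iff.1 (H1 i i.2).1
  · intro hfl
    rw [eq_top_iff]
    intro a _
    exact (H1 i i.2).2.2.2.2.2 hfl _ (hvlt i a)

theorem num_of_core {n : ℕ} {l : List ℕ} (h : IsTable n l) {K B fl N : ℕ} (hN : B + n + 2 ≤ N)
    (H : Core (fl = 1) K B (tableSg n l h)) :
    ∃ ms < N ^ K, ∃ mt < N ^ (K * B * B), ∃ mu < N ^ (K * B), ∃ mg < N ^ (B ^ K),
      NumOK (tmul n l) n K B fl (fun i => ms / N ^ i % N)
        (fun i a b => mt / N ^ ((i * B + a) * B + b) % N) (fun i a => mu / N ^ (i * B + a) % N)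
        (fun t => mg / N ^ t % N) := by
  classical
  obtain ⟨T, U, hTU, f, hf⟩ := H
  obtain ⟨w0, -⟩ := hf (⟨0, h.1⟩ : Fin n)
  let s : Fin K → ℕ := fun i => Nat.card (T i)
  have hsB : ∀ i, s i ≤ B := fun i => (hTU i).2.1
  let ε : ∀ i, T i → ℕ := fun i x => (Finite.equivFin (T i) x).1
  have hε : ∀ i x, ε i x < s i := fun i x => (Finite.equivFin (T i) x).2
  have hδ : ∀ i, ∃ δ : ℕ → T i, (∀ x, δ (ε i x) = x) ∧ ∀ a < s i, ε i (δ a) = a := by
    intro i
    obtain ⟨x0⟩ := (T i).ne
    refine ⟨fun a => if ha : a < s i then (Finite.equivFin (T i)).symm ⟨a, ha⟩ else x0, ?_, ?_⟩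
    · intro x
      have := hε i x
      simp only [this, dif_pos]
      exact (Finite.equivFin (T i)).symm_apply_apply x
    · intro a ha
      simp only [ha, dif_pos, ε]
      rw [Equiv.apply_symm_apply]
  choose δ hδ1 hδ2 using hδ
  have hδ' : ∀ i a, ∃ y : U i, δ i a ∈ U i → y.1 = δ i a := by
    intro i a
    by_cases hm : δ i a ∈ U i
    · exact ⟨⟨_, hm⟩, fun _ => rfl⟩
    · exact ⟨w0 i, fun h => absurd h hm⟩
  choose δ' hδ' using hδ'
  obtain ⟨ms, hms, hms'⟩ := exists_digits N K (fun i => if hi : i < K then s ⟨i, hi⟩ else 0) (by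
    intro i hi
    rw [dif_pos hi]
    have := hsB ⟨i, hi⟩
    omega)
  obtain ⟨mt, hmt, hmt'⟩ := exists_digits N (K * B * B) (fun j => if hi : j / B / B < K then
      ε ⟨j / B / B, hi⟩ (δ ⟨j / B / B, hi⟩ (j / B % B) * δ ⟨j / B / B, hi⟩ (j % B)) else 0) (by
    intro j _
    show dite _ _ _ < N
    split_ifs with hi
    · have h1 := hε ⟨j / B / B, hi⟩ (δ ⟨j / B / B, hi⟩ (j / B % B) * δ ⟨j / B / B, hi⟩ (j % B))
      have h2 := hsB ⟨j / B / B, hi⟩
      omega
    · omega)
  obtain ⟨mu, hmu, hmu'⟩ := exists_digits N (K * B) (fun j => if hi : j / B < K then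
      (if δ ⟨j / B, hi⟩ (j % B) ∈ U ⟨j / B, hi⟩ then 1 else 0) else 0) (by
    intro j _
    show dite _ _ _ < N
    split_ifs with hi
    · omega
    · omega
    · omega)
  obtain ⟨mg, hmg, hmg'⟩ := exists_digits N (B ^ K)
    (fun t => Fin.val (n := n) (f fun i => δ' i (t / B ^ (i : ℕ) % B))) (by
      intro t _
      have := Fin.isLt (n := n) (f fun i => δ' i (t / B ^ (i : ℕ) % B))
      show Fin.val (n := n) (f fun i => δ' i (t / B ^ (i : ℕ) % B)) < N
      omega)
  refine ⟨ms, hms, mt, hmt, mu, hmu, mg, hmg, ?_⟩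
  have Hs : ∀ i : Fin K, ms / N ^ (i : ℕ) % N = s i := by
    intro i
    rw [hms' i i.2]
    show dite _ _ _ = _
    rw [dif_pos i.2]
  have Ht : ∀ i : Fin K, ∀ a < B, ∀ b < B, mt / N ^ (((i : ℕ) * B + a) * B + b) % N =
      ε i (δ i a * δ i b) := by
    intro i a ha b hb
    have hB : 0 < B := by omega
    have e1 : (((i : ℕ) * B + a) * B + b) % B = b := by
      rw [Nat.mul_add_mod_self_right]; exact Nat.mod_eq_of_lt hb
    have e2 : (((i : ℕ) * B + a) * B + b) / B = (i : ℕ) * B + a := by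
      rw [Nat.mul_comm ((i : ℕ) * B + a) B, Nat.mul_add_div hB, Nat.div_eq_of_lt hb, add_zero]
    have e3 : ((i : ℕ) * B + a) % B = a := by
      rw [Nat.mul_add_mod_self_right]; exact Nat.mod_eq_of_lt ha
    have e4 : ((i : ℕ) * B + a) / B = (i : ℕ) := by
      rw [Nat.mul_comm (i : ℕ) B, Nat.mul_add_div hB, Nat.div_eq_of_lt ha, add_zero]
    have hi : ((((i : ℕ) * B + a) * B + b)) / B / B < K := by rw [e2, e4]; exact i.2
    have hlt : ((i : ℕ) * B + a) * B + b < K * B * B := by
      have h1 : (i : ℕ) + 1 ≤ K := i.2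
      calc ((i : ℕ) * B + a) * B + b < ((i : ℕ) * B + a) * B + B := by omega
        _ = ((i : ℕ) * B + a + 1) * B := by ring
        _ ≤ ((i : ℕ) * B + B) * B := Nat.mul_le_mul_right _ (by omega)
        _ = ((i : ℕ) + 1) * B * B := by ring
        _ ≤ K * B * B := Nat.mul_le_mul_right _ (Nat.mul_le_mul_right _ h1)
    rw [hmt' _ hlt]
    show dite _ _ _ = _
    rw [dif_pos hi]
    have e5 : (⟨((((i : ℕ) * B + a) * B + b)) / B / B, hi⟩ : Fin K) = i :=
      Fin.ext (by simp only [e2, e4])
    rw [e5, e2, e3, e1]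
  have Hu : ∀ i : Fin K, ∀ a < B, (mu / N ^ ((i : ℕ) * B + a) % N = 1 ↔ δ i a ∈ U i) := by
    intro i a ha
    have hB : 0 < B := by omega
    have e3 : ((i : ℕ) * B + a) % B = a := by
      rw [Nat.mul_add_mod_self_right]; exact Nat.mod_eq_of_lt ha
    have e4 : ((i : ℕ) * B + a) / B = (i : ℕ) := by
      rw [Nat.mul_comm (i : ℕ) B, Nat.mul_add_div hB, Nat.div_eq_of_lt ha, add_zero]
    have hi : ((i : ℕ) * B + a) / B < K := by rw [e4]; exact i.2
    have hlt : (i : ℕ) * B + a < K * B := by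
      have h1 : (i : ℕ) + 1 ≤ K := i.2
      calc (i : ℕ) * B + a < (i : ℕ) * B + B := by omega
        _ = ((i : ℕ) + 1) * B := by ring
        _ ≤ K * B := Nat.mul_le_mul_right _ h1
    rw [hmu' _ hlt]
    show dite _ _ _ = 1 ↔ _
    rw [dif_pos hi]
    have e5 : (⟨((i : ℕ) * B + a) / B, hi⟩ : Fin K) = i := Fin.ext e4
    rw [e5, e3]
    by_cases hm : δ i a ∈ U i
    · simp [hm]
    · simp [hm]
  have Hg : ∀ t < B ^ K, mg / N ^ t % N =
      Fin.val (n := n) (f fun i => δ' i (t / B ^ (i : ℕ) % B)) := fun t ht => hmg' t ht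
  have hmulδ : ∀ i : Fin K, ∀ a < s i, ∀ b < s i, δ i (mt / N ^ (((i : ℕ) * B + a) * B + b) % N) =
      δ i a * δ i b := by
    intro i a ha b hb
    rw [Ht i a (lt_of_lt_of_le ha (hsB i)) b (lt_of_lt_of_le hb (hsB i)), hδ1]
  have hTlt : ∀ i : Fin K, ∀ a < s i, ∀ b < s i,
      mt / N ^ (((i : ℕ) * B + a) * B + b) % N < s i := by
    intro i a ha b hb
    rw [Ht i a (lt_of_lt_of_le ha (hsB i)) b (lt_of_lt_of_le hb (hsB i))]
    exact hε _ _
  refine ⟨?_, ?_, ?_⟩
  · intro i hi
    have hs1 := Hs ⟨i, hi⟩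
    simp only at hs1 ⊢
    rw [hs1]
    have hTl := hTlt ⟨i, hi⟩
    have hTm := hmulδ ⟨i, hi⟩
    have hlt := fun a (ha : a < s ⟨i, hi⟩) => lt_of_lt_of_le ha (hsB ⟨i, hi⟩)
    have hu := fun a (ha : a < s ⟨i, hi⟩) => Hu ⟨i, hi⟩ a (hlt a ha)
    simp only at hTl hTm hu
    refine ⟨Nat.lt_succ_iff.2 (hsB ⟨i, hi⟩), hTl, ?_, ?_, ?_, ?_⟩
    · intro a ha b hb c hc
      rw [← hδ2 ⟨i, hi⟩ _ (hTl _ (hTl a ha b hb) c hc),
        ← hδ2 ⟨i, hi⟩ _ (hTl a ha _ (hTl b hb c hc)), hTm _ (hTl a ha b hb) c hc,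
        hTm a ha _ (hTl b hb c hc), hTm a ha b hb, hTm b hb c hc, mul_assoc]
    · obtain ⟨z, hz⟩ := zs_of_zeroSimple (hTU ⟨i, hi⟩).1
      refine ⟨ε _ z, hε _ _, ?_, ?_, ?_⟩
      · intro x hx
        constructor
        · rw [← hδ2 ⟨i, hi⟩ _ (hTl _ (hε _ z) x hx), hTm _ (hε _ z) x hx, hδ1, (hz.1 _).1]
        · rw [← hδ2 ⟨i, hi⟩ _ (hTl x hx _ (hε _ z)), hTm x hx _ (hε _ z), hδ1, (hz.1 _).2]
      · obtain ⟨x, y, hxy⟩ := hz.2.1
        refine ⟨ε _ x, hε _ _, ε _ y, hε _ _, fun h => hxy ?_⟩
        have h1 := congrArg (δ ⟨i, hi⟩) h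
        rw [hTm _ (hε _ x) _ (hε _ y), hδ1, hδ1, hδ1] at h1
        exact h1
      · intro a ha haz b hb
        have h1 : δ ⟨i, hi⟩ a ≠ z := by
          intro h; apply haz; rw [← h, hδ2 _ _ ha]
        obtain ⟨x, y, hxy⟩ := hz.2.2 _ h1 (δ ⟨i, hi⟩ b)
        refine ⟨ε _ x, hε _ _, ε _ y, hε _ _, ?_⟩
        rw [← hδ2 ⟨i, hi⟩ _ (hTl _ (hTl _ (hε _ x) a ha) _ (hε _ y)),
          hTm _ (hTl _ (hε _ x) a ha) _ (hε _ y), hTm _ (hε _ x) a ha, hδ1, hδ1, hxy, hδ2 _ _ hb]
    · intro a ha b hb h1 h2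
      rw [hu a ha] at h1
      rw [hu b hb] at h2
      rw [hu _ (hTl a ha b hb), hTm a ha b hb]
      exact (U ⟨i, hi⟩).mul_mem h1 h2
    · intro hfl a ha
      rw [hu a ha, (hTU ⟨i, hi⟩).2.2 hfl]
      trivial
  · intro t ht hv
    refine ⟨?_, ?_⟩
    · show mg / N ^ t % N < n
      rw [Hg t ht]
      exact Fin.isLt _
    · intro t' ht' hv' t'' ht'' hd
      show mg / N ^ t'' % N = tmul n l (mg / N ^ t % N) (mg / N ^ t' % N)
      rw [Hg t ht, Hg t' ht', Hg t'' ht'']
      have key : (fun i : Fin K => δ' i (t'' / B ^ (i : ℕ) % B)) =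
          (fun i : Fin K => δ' i (t / B ^ (i : ℕ) % B)) *
            fun i : Fin K => δ' i (t' / B ^ (i : ℕ) % B) := by
        funext i
        have h1 := hv i i.2
        have h2 := hv' i i.2
        have h3 := hd i i.2
        simp only [Hs] at h1 h2
        rw [Hu i _ (lt_of_lt_of_le h1.1 (hsB i))] at h1
        rw [Hu i _ (lt_of_lt_of_le h2.1 (hsB i))] at h2
        apply Subtype.ext
        show (δ' i (t'' / B ^ (i : ℕ) % B)).1 =
          (δ' i (t / B ^ (i : ℕ) % B)).1 * (δ' i (t' / B ^ (i : ℕ) % B)).1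
        have h4 : δ i (t'' / B ^ (i : ℕ) % B) =
            δ i (t / B ^ (i : ℕ) % B) * δ i (t' / B ^ (i : ℕ) % B) := by
          rw [h3, hmulδ i _ h1.1 _ h2.1]
        rw [hδ' i _ h1.2, hδ' i _ h2.2, hδ' i _ (by rw [h4]; exact (U i).mul_mem h1.2 h2.2), h4]
      rw [key, map_mul]
      rfl
  · intro x hx
    obtain ⟨w, hw⟩ := hf (⟨x, hx⟩ : Fin n)
    obtain ⟨t, ht, htd⟩ := exists_digits B K
      (fun i => if hi : i < K then ε ⟨i, hi⟩ (w ⟨i, hi⟩).1 else 0) (by
        intro i hi
        rw [dif_pos hi]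
        exact lt_of_lt_of_le (hε _ _) (hsB ⟨i, hi⟩))
    have hd : ∀ i : Fin K, t / B ^ (i : ℕ) % B = ε i (w i).1 := by
      intro i
      rw [htd i i.2]
      show dite _ _ _ = _
      rw [dif_pos i.2]
    refine ⟨t, ht, ?_, ?_⟩
    · intro i hi
      have h1 := hd ⟨i, hi⟩
      have h2 := Hs ⟨i, hi⟩
      have h3 := Hu ⟨i, hi⟩ (ε ⟨i, hi⟩ (w ⟨i, hi⟩).1) (lt_of_lt_of_le (hε _ _) (hsB ⟨i, hi⟩))
      simp only at h1 h2 h3 ⊢
      rw [h1, h2, h3, hδ1]
      exact ⟨hε _ _, (w ⟨i, hi⟩).2⟩
    · show mg / N ^ t % N = x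
      rw [Hg t ht]
      have : (fun i : Fin K => δ' i (t / B ^ (i : ℕ) % B)) = w := by
        funext i
        apply Subtype.ext
        rw [hd i, hδ' i _ (by rw [hδ1]; exact (w i).2), hδ1]
      rw [this, hw]

end

section
open Function

section formula

def dgt (m N i : Tm) : Tm := .mod (.div m (.pow N i)) N
def tS (i : Tm) : Tm := dgt (.v 5) (.v 3) i
def tT (i a b : Tm) : Tm :=
  dgt (.v 6) (.v 3) (.add (.mul (.add (.mul i (.v 2)) a) (.v 2)) b)
def tU (i a : Tm) : Tm := dgt (.v 7) (.v 3) (.add (.mul i (.v 2)) a)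
def tG (t : Tm) : Tm := dgt (.v 8) (.v 3) t
def tD (t i : Tm) : Tm := dgt t (.v 2) i
def tM (x y : Tm) : Tm := .lk (.add (.mul x (.v 0)) y)
def tBK : Tm := .pow (.v 2) (.v 1)

def part1 : Fm :=
  .all (.v 1) (.and (.lt (tS (.v 9)) (.add (.v 2) (.c 1)))
    (.and (.all (tS (.v 9)) (.all (tS (.v 9)) (.lt (tT (.v 9) (.v 10) (.v 11)) (tS (.v 9)))))
    (.and (.all (tS (.v 9)) (.all (tS (.v 9)) (.all (tS (.v 9))
      (.eq (tT (.v 9) (tT (.v 9) (.v 10) (.v 11)) (.v 12))
        (tT (.v 9) (.v 10) (tT (.v 9) (.v 11) (.v 12)))))))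
    (.and (.ex (tS (.v 9)) (.and (.all (tS (.v 9))
        (.and (.eq (tT (.v 9) (.v 10) (.v 11)) (.v 10)) (.eq (tT (.v 9) (.v 11) (.v 10)) (.v 10))))
      (.and (.ex (tS (.v 9)) (.ex (tS (.v 9)) (.not (.eq (tT (.v 9) (.v 11) (.v 12)) (.v 10)))))
        (.all (tS (.v 9)) (.imp (.not (.eq (.v 11) (.v 10))) (.all (tS (.v 9)) (.ex (tS (.v 9))
          (.ex (tS (.v 9)) (.eq (tT (.v 9) (tT (.v 9) (.v 13) (.v 11)) (.v 14)) (.v 12))))))))))
    (.and (.all (tS (.v 9)) (.all (tS (.v 9)) (.imp (.eq (tU (.v 9) (.v 10)) (.c 1))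
      (.imp (.eq (tU (.v 9) (.v 11)) (.c 1)) (.eq (tU (.v 9) (tT (.v 9) (.v 10) (.v 11))) (.c 1))))))
      (.imp (.eq (.v 4) (.c 1)) (.all (tS (.v 9)) (.eq (tU (.v 9) (.v 10)) (.c 1)))))))))

def part2 : Fm :=
  .all tBK (.imp (.all (.v 1) (.and (.lt (tD (.v 9) (.v 10)) (tS (.v 10)))
      (.eq (tU (.v 10) (tD (.v 9) (.v 10))) (.c 1))))
    (.and (.lt (tG (.v 9)) (.v 0)) (.all tBK (.imp
      (.all (.v 1) (.and (.lt (tD (.v 10) (.v 11)) (tS (.v 11)))
        (.eq (tU (.v 11) (tD (.v 10) (.v 11))) (.c 1))))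
      (.all tBK (.imp (.all (.v 1) (.eq (tD (.v 11) (.v 12))
        (tT (.v 12) (tD (.v 9) (.v 12)) (tD (.v 10) (.v 12)))))
        (.eq (tG (.v 11)) (tM (tG (.v 9)) (tG (.v 10))))))))))

def part3 : Fm :=
  .all (.v 0) (.ex tBK (.and (.all (.v 1) (.and (.lt (tD (.v 10) (.v 11)) (tS (.v 11)))
    (.eq (tU (.v 11) (tD (.v 10) (.v 11))) (.c 1)))) (.eq (tG (.v 10)) (.v 9))))

def mainF : Fm :=
  .ex (.pow (.v 3) (.v 1)) (.ex (.pow (.v 3) (.mul (.mul (.v 1) (.v 2)) (.v 2)))
    (.ex (.pow (.v 3) (.mul (.v 1) (.v 2))) (.ex (.pow (.v 3) (.pow (.v 2) (.v 1)))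
      (.and part1 (.and part2 part3)))))

theorem mainF_ho (l : List ℕ) (n K B N fl : ℕ) : mainF.ho l [n, K, B, N, fl] ↔
    ∃ ms < N ^ K, ∃ mt < N ^ (K * B * B), ∃ mu < N ^ (K * B), ∃ mg < N ^ (B ^ K),
      NumOK (tmul n l) n K B fl (fun i => ms / N ^ i % N)
        (fun i a b => mt / N ^ ((i * B + a) * B + b) % N) (fun i a => mu / N ^ (i * B + a) % N)
        (fun t => mg / N ^ t % N) := Iff.rfl

end formula

section prim
open Primrec

theorem allMem {α β : Type} [Primcodable α] [Primcodable β] {f : α → List β} {P : α → β → Prop}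
    (hf : Primrec f) (hP : PrimrecPred fun p : α × β => P p.1 p.2) :
    PrimrecPred (fun a => ∀ x ∈ f a, P a x) := by
  have hR : PrimrecRel (fun (x : β) (a : α) => P a x) := hP.comp (snd.pair fst)
  exact (PrimrecRel.forall_mem_list hR).comp hf Primrec.id

theorem tmulPrim {α : Type} [Primcodable α] {n i j : α → ℕ} {l : α → List ℕ} (hn : Primrec n)
    (hl : Primrec l) (hi : Primrec i) (hj : Primrec j) :
    Primrec (fun a => tmul (n a) (l a) (i a) (j a)) := by
  unfold tmul
  exact (Primrec.list_getD 0).comp hl (Primrec.nat_add.comp (Primrec.nat_mul.comp hi hn) hj)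

theorem isTablePrim : PrimrecPred fun x : ℕ × List ℕ => IsTable x.1 x.2 := by
  unfold IsTable
  refine PrimrecPred.and (Primrec.nat_lt.comp (Primrec.const 0) fst) (PrimrecPred.and
    (Primrec.eq.comp (Primrec.list_length.comp snd) (Primrec.nat_mul.comp fst fst))
    (PrimrecPred.and ?_ ?_))
  · exact allMem (f := fun x : ℕ × List ℕ => x.2) (P := fun x y => y < x.1) snd
      (Primrec.nat_lt.comp snd (fst.comp fst))
  · refine allLt (f := fun x : ℕ × List ℕ => x.1) fst ?_
    refine allLt (f := fun x : (ℕ × List ℕ) × ℕ => x.1.1) (fst.comp fst) ?_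
    refine allLt (f := fun x : ((ℕ × List ℕ) × ℕ) × ℕ => x.1.1.1) (fst.comp (fst.comp fst)) ?_
    have hn : Primrec fun x : (((ℕ × List ℕ) × ℕ) × ℕ) × ℕ => x.1.1.1.1 :=
      fst.comp (fst.comp (fst.comp fst))
    have hl : Primrec fun x : (((ℕ × List ℕ) × ℕ) × ℕ) × ℕ => x.1.1.1.2 :=
      snd.comp (fst.comp (fst.comp fst))
    have hi : Primrec fun x : (((ℕ × List ℕ) × ℕ) × ℕ) × ℕ => x.1.1.2 :=
      snd.comp (fst.comp fst)
    have hj : Primrec fun x : (((ℕ × List ℕ) × ℕ) × ℕ) × ℕ => x.1.2 := snd.comp fst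
    have hk : Primrec fun x : (((ℕ × List ℕ) × ℕ) × ℕ) × ℕ => x.2 := snd
    exact Primrec.eq.comp (tmulPrim hn hl (tmulPrim hn hl hi hj) hk)
      (tmulPrim hn hl hi (tmulPrim hn hl hj hk))

theorem decClass_of_core (C : Set FinSg) (fl : ℕ) (Kf Bf : ℕ → ℕ) (hK : Primrec Kf)
    (hB : Primrec Bf) (H : ∀ n l (h : IsTable n l),
      tableSg n l h ∈ C ↔ Core (fl = 1) (Kf n) (Bf n) (tableSg n l h)) : DecClass C := by
  have henv : Primrec fun x : ℕ × List ℕ =>
      (x.2, [x.1, Kf x.1, Bf x.1, Bf x.1 + x.1 + 2, fl]) := by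
    have h1 : Primrec fun x : ℕ × List ℕ => x.1 := fst
    have h2 : Primrec fun x : ℕ × List ℕ => Kf x.1 := hK.comp fst
    have h3 : Primrec fun x : ℕ × List ℕ => Bf x.1 := hB.comp fst
    have h4 : Primrec fun x : ℕ × List ℕ => Bf x.1 + x.1 + 2 :=
      Primrec.nat_add.comp (Primrec.nat_add.comp h3 h1) (Primrec.const 2)
    exact snd.pair (Primrec.list_cons.comp h1 (Primrec.list_cons.comp h2
      (Primrec.list_cons.comp h3 (Primrec.list_cons.comp h4 (Primrec.const [fl])))))
  have h1 : PrimrecPred fun x : ℕ × List ℕ => IsTable x.1 x.2 ∧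
      mainF.ho x.2 [x.1, Kf x.1, Bf x.1, Bf x.1 + x.1 + 2, fl] :=
    isTablePrim.and (mainF.prim.comp henv)
  have h2 : PrimrecPred fun x : ℕ × List ℕ => ∃ h : IsTable x.1 x.2, tableSg x.1 x.2 h ∈ C := by
    refine h1.of_eq fun x => ?_
    constructor
    · rintro ⟨h, hm⟩
      refine ⟨h, (H _ _ h).2 ?_⟩
      obtain ⟨ms, -, mt, -, mu, -, mg, -, hok⟩ := (mainF_ho _ _ _ _ _ _).1 hm
      exact core_of_num h hok
    · rintro ⟨h, hm⟩
      exact ⟨h, (mainF_ho _ _ _ _ _ _).2 (num_of_core h le_rfl ((H _ _ h).1 hm))⟩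
  obtain ⟨hd, hp⟩ := h2
  exact ⟨hd, hp.to_comp⟩

theorem prim_pow {f g : ℕ → ℕ} (hf : Primrec f) (hg : Primrec g) :
    Primrec fun n => f n ^ g n := powPrim.comp hf hg

theorem prim_mul {f g : ℕ → ℕ} (hf : Primrec f) (hg : Primrec g) :
    Primrec fun n => f n * g n := Primrec.nat_mul.comp hf hg

theorem prim_add {f g : ℕ → ℕ} (hf : Primrec f) (hg : Primrec g) :
    Primrec fun n => f n + g n := Primrec.nat_add.comp hf hg

end prim

/-- padding: any finite index set of size at most `K` will do -/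
theorem core_of_index {S : FinSg} {ι : Type} [Finite ι] [Nonempty ι] {K B : ℕ} (full : Prop)
    (hK : Nat.card ι ≤ K) (T : ι → FinSg) (U : ∀ i, Subsemigroup (T i))
    (h : ∀ i, ZeroSimple (T i) ∧ Nat.card (T i) ≤ B ∧ (full → U i = ⊤))
    (f : (∀ i, U i) →ₙ* S) (hf : Surjective f) : Core full K B S := by
  classical
  let r : ι → Fin K := fun i => Fin.castLE hK (Finite.equivFin ι i)
  have hr : Injective r := fun i j hij =>
    (Finite.equivFin ι).injective (Fin.castLE_injective hK hij)
  let e : Fin K → ι := invFun r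
  have her : ∀ i, e (r i) = i := leftInverse_invFun hr
  have hσ : ∀ j i, j = i → ∃ σ : U j →ₙ* U i, ∀ x : ∀ i, U i, σ (x j) = x i := by
    rintro j _ rfl
    exact ⟨MulHom.id _, fun x => rfl⟩
  choose σ hσ using fun i => hσ (e (r i)) i (her i)
  refine ⟨fun j => T (e j), fun j => U (e j), fun j => h (e j),
    ⟨fun w => f fun i => σ i (w (r i)), ?_⟩, ?_⟩
  · intro w w'
    rw [← map_mul]
    congr 1
    funext i
    show σ i (w (r i) * w' (r i)) = σ i (w (r i)) * σ i (w' (r i))
    rw [map_mul]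
  · intro s
    obtain ⟨x, rfl⟩ := hf s
    refine ⟨fun j => x (e j), ?_⟩
    show f _ = f x
    congr 1
    funext i
    exact hσ i x

theorem hp_of_core {S : FinSg} {K B : ℕ} (h : Core (1 = 1) (K + 1) B S) :
    S ∈ opH (opP C0) := by
  obtain ⟨T, U, hTU, f, hf⟩ := h
  have hU : ∀ i (x : T i), x ∈ U i := fun i x => by rw [(hTU i).2.2 rfl]; trivial
  refine ⟨prodSg T, ⟨K, T, fun i => (hTU i).1, ⟨MulEquiv.refl _⟩⟩,
    ⟨fun w => f fun i => ⟨w i, hU i _⟩, ?_⟩, ?_⟩
  · intro w w'
    rw [← map_mul]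
    rfl
  · intro s
    obtain ⟨x, rfl⟩ := hf s
    exact ⟨fun i => (x i).1, rfl⟩

theorem hps_of_core {S : FinSg} {K B : ℕ} (h : Core (0 = 1) (K + 1) B S) :
    S ∈ opH (opP (opS C0)) := by
  obtain ⟨T, U, hTU, f, hf⟩ := h
  obtain ⟨s0⟩ := S.ne
  obtain ⟨w0, -⟩ := hf s0
  let V : Fin (K + 1) → FinSg := fun i => ⟨U i, inferInstance, inferInstance, ⟨w0 i⟩⟩
  refine ⟨prodSg V, ⟨K, V, fun i => ⟨T i, (hTU i).1, ⟨fun x : U i => x.1, fun _ _ => rfl⟩,
    fun _ _ h => Subtype.ext h⟩, ⟨MulEquiv.refl _⟩⟩, f, hf⟩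

theorem core_of_hp {S : FinSg} (h : S ∈ opH (opP C0)) :
    Core (1 = 1) (numK (Nat.card S) (hpB (Nat.card S)) + 1) (hpB (Nat.card S)) S := by
  obtain ⟨A, ⟨m, T, hT, ⟨e⟩⟩, f, hf⟩ := h
  let f1 : (∀ i, T i) →ₙ* S := f.comp (e.symm : prodSg T →ₙ* A)
  have hf1 : Surjective f1 := hf.comp e.symm.surjective
  obtain ⟨T', hT', f2, hf2⟩ := hp_size T hT f1 hf1
  obtain ⟨k', hk', e', f3, hf3⟩ := merge T' (fun i => (hT' i).2) f2 hf2
  let T3 : Option (Fin k') → FinSg := fun o => o.elim (T' 0) fun j => T' (e' j)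
  have hc : Nat.card (Option (Fin k')) = k' + 1 := by simp [Nat.card_eq_fintype_card]
  refine core_of_index (ι := Option (Fin k')) (1 = 1) (by omega) T3 (fun _ => ⊤) ?_
    ⟨fun w => f3 fun j => (w (some j)).1, ?_⟩ ?_
  · intro o
    cases o with
    | none => exact ⟨(hT' 0).1, (hT' 0).2, fun _ => rfl⟩
    | some j => exact ⟨(hT' (e' j)).1, (hT' (e' j)).2, fun _ => rfl⟩
  · intro w w'
    rw [← map_mul]
    rfl
  · intro s
    obtain ⟨x, rfl⟩ := hf3 s
    obtain ⟨t0⟩ := (T' 0).ne
    refine ⟨fun o => match o with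
      | none => ⟨t0, trivial⟩
      | some j => ⟨x j, trivial⟩, rfl⟩

theorem core_of_hps {S : FinSg} (h : S ∈ opH (opP (opS C0))) :
    Core (0 = 1) (2 ^ Nat.card S * 2 ^ (Nat.card S * Nat.card S) + 1)
      (Sys.hpsB (Nat.card S)) S := by
  obtain ⟨A, ⟨m, T, hT, ⟨e⟩⟩, f, hf⟩ := h
  let f1 : (∀ i, T i) →ₙ* S := f.comp (e.symm : prodSg T →ₙ* A)
  have hf1 : Surjective f1 := hf.comp e.symm.surjective
  choose C hC j hj using hT
  obtain ⟨T', V, hT', g, hg⟩ := hps_red C hC T j hj f1 hf1
  refine core_of_index (ι := Dig S) (0 = 1) (by rw [card_dig]; omega) T' V ?_ g hg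
  intro D
  exact ⟨(hT' D).1, (hT' D).2, fun h => by omega⟩

theorem card_tableSg {n : ℕ} {l : List ℕ} (h : IsTable n l) : Nat.card (tableSg n l h) = n := by
  show Nat.card (Fin n) = n
  exact Nat.card_fin n

theorem prim_rmB {f : ℕ → ℕ} (hf : Primrec f) : Primrec fun n => RC.rmB n (f n) := by
  have hid : Primrec (fun n : ℕ => n) := Primrec.id
  have hc : ∀ k : ℕ, Primrec (fun _ : ℕ => k) := fun k => Primrec.const k
  have hN : Primrec fun n => RC.stN n (f n) := by
    unfold RC.stN
    exact prim_mul (prim_pow (prim_add hf (hc 1)) hid) hf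
  unfold RC.rmB
  have h3 : Primrec fun n : ℕ => n + n := prim_add hid hid
  exact prim_add (prim_mul h3 (prim_mul (prim_pow hN hN) h3)) (hc 1)

theorem prim_dig : Primrec fun n : ℕ => 2 ^ n * 2 ^ (n * n) := by
  have hid : Primrec (fun n : ℕ => n) := Primrec.id
  have hc : ∀ k : ℕ, Primrec (fun _ : ℕ => k) := fun k => Primrec.const k
  exact prim_mul (prim_pow (hc 2) hid) (prim_pow (hc 2) (prim_mul hid hid))

theorem hp_dec : DecClass (opH (opP C0)) := by
  have hid : Primrec (fun n : ℕ => n) := Primrec.id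
  have hc : ∀ k : ℕ, Primrec (fun _ : ℕ => k) := fun k => Primrec.const k
  have hB : Primrec hpB := by
    unfold hpB
    have h1 : Primrec fun n : ℕ => 2 * (n + 1) := prim_mul (hc 2) (prim_add hid (hc 1))
    exact prim_add (prim_mul h1 (prim_mul h1 hid)) (hc 1)
  refine decClass_of_core _ 1 (fun n => numK n (hpB n) + 1) hpB ?_ hB ?_
  · unfold numK
    have h1 : Primrec fun n : ℕ => hpB n + 1 := prim_add hB (hc 1)
    exact prim_add (prim_mul (prim_pow (hc 2) h1) (prim_mul (prim_pow (hc 2)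
      (prim_mul h1 (prim_mul h1 h1))) (prim_pow h1 hid))) (hc 1)
  · intro n l h
    constructor
    · intro hm
      have := core_of_hp hm
      rwa [card_tableSg h] at this
    · exact hp_of_core

theorem hps_dec : DecClass (opH (opP (opS C0))) := by
  have hid : Primrec (fun n : ℕ => n) := Primrec.id
  have hc : ∀ k : ℕ, Primrec (fun _ : ℕ => k) := fun k => Primrec.const k
  have hq : Primrec Sys.qB := by
    unfold Sys.qB
    exact prim_add hid (prim_mul (prim_pow hid (prim_pow hid prim_dig)) hid)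
  refine decClass_of_core _ 0 (fun n => 2 ^ n * 2 ^ (n * n) + 1) Sys.hpsB
    (prim_add prim_dig (hc 1)) (prim_rmB hq) ?_
  intro n l h
  constructor
  · intro hm
    have := core_of_hps hm
    rwa [card_tableSg h] at this
  · exact hps_of_core

/-! ### `SHPS` -/

theorem core_iso {full : Prop} {K B : ℕ} {R R' : FinSg} (φ : R ≃* R') (h : Core full K B R) :
    Core full K B R' := by
  obtain ⟨T, U, hTU, f, hf⟩ := h
  exact ⟨T, U, hTU, (φ : R →ₙ* R').comp f, φ.surjective.comp hf⟩

/-- the list of the first `k` digits of `c` to the base `N` -/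
def dl (N k c : ℕ) : List ℕ := (List.range k).map fun j => c / N ^ j % N

theorem exists_dl (N : ℕ) (l : List ℕ) (hl : ∀ x ∈ l, x < N) :
    ∃ c < N ^ l.length, dl N l.length c = l := by
  obtain ⟨c, hc, hd⟩ := exists_digits N l.length (fun i => l.getD i 0) (by
    intro i hi
    rw [List.getD_eq_getElem _ _ hi]
    exact hl _ (List.getElem_mem hi))
  refine ⟨c, hc, ?_⟩
  apply List.ext_getElem
  · simp [dl]
  · intro i h1 h2
    simp only [dl, List.getElem_map, List.getElem_range]
    rw [hd i h2, List.getD_eq_getElem _ _ h2]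

/-- every finite semigroup containing a table semigroup is given by a table extending it -/
theorem exists_table {n : ℕ} {l : List ℕ} (h : IsTable n l) (R : FinSg)
    (e : tableSg n l h →ₙ* R) (he : Injective e) :
    ∃ (l' : List ℕ) (h' : IsTable (Nat.card R) l'), n ≤ Nat.card R ∧
      (∀ i < n, ∀ j < n, tmul (Nat.card R) l' i j = tmul n l i j) ∧
        Nonempty (R ≃* tableSg (Nat.card R) l' h') := by
  classical
  have := Fintype.ofFinite R
  obtain ⟨m, hm⟩ : ∃ m, m = Nat.card R := ⟨_, rfl⟩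
  rw [← hm]
  have hmc : Fintype.card R = m := by rw [hm, Nat.card_eq_fintype_card]
  have hnm : n ≤ m := by
    have := Nat.card_le_card_of_injective e he
    rwa [card_tableSg h, ← hm] at this
  have hm0 : 0 < m := lt_of_lt_of_le h.1 hnm
  obtain ⟨r0⟩ := R.ne
  let e' : Fin n → R := fun i => e i
  have he' : Injective e' := he
  obtain ⟨g0, hg0⟩ := Set.MapsTo.exists_equiv_extend_of_card_eq (α := Fin m)
    (t := (Finset.univ : Finset R)) (s := {j | (j : ℕ) < n})
    (f := fun j => if hj : (j : ℕ) < n then e' ⟨j, hj⟩ else r0) (by simp [hmc])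
    (fun x _ => by simp) (by
      intro i hi j hj hij
      have hi' : (i : ℕ) < n := hi
      have hj' : (j : ℕ) < n := hj
      simp only [hi', hj', dif_pos] at hij
      have := he' hij
      simp only [Fin.mk.injEq] at this
      exact Fin.ext this)
  let g : Fin m ≃ R := g0.trans (Equiv.subtypeUnivEquiv (by simp))
  have hg : ∀ (i : ℕ) (hi : i < n), g ⟨i, lt_of_lt_of_le hi hnm⟩ = e' ⟨i, hi⟩ := by
    intro i hi
    have := hg0 ⟨i, lt_of_lt_of_le hi hnm⟩ hi
    simp only [hi, dif_pos] at this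
    exact this
  let gg : ℕ → R := fun i => g ⟨i % m, Nat.mod_lt _ hm0⟩
  have hgg : ∀ i (hi : i < m), gg i = g ⟨i, hi⟩ := by
    intro i hi
    show g ⟨i % m, _⟩ = _
    congr 1
    exact Fin.ext (Nat.mod_eq_of_lt hi)
  have hinv : ∀ x : R, gg (g.symm x) = x := by
    intro x
    rw [hgg _ (g.symm x).2]
    exact g.apply_symm_apply x
  let l' : List ℕ := (List.range (m * m)).map fun q => ((g.symm (gg (q / m) * gg (q % m)) : Fin m) : ℕ)
  have hlen : l'.length = m * m := by simp [l']
  have htm : ∀ i < m, ∀ j < m, tmul m l' i j = (g.symm (gg i * gg j) : Fin m) := by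
    intro i hi j hj
    have hlt : i * m + j < l'.length := by
      rw [hlen]
      calc i * m + j < i * m + m := by omega
        _ = (i + 1) * m := by ring
        _ ≤ m * m := Nat.mul_le_mul_right _ hi
    unfold tmul
    rw [List.getD_eq_getElem _ _ hlt]
    simp only [l', List.getElem_map, List.getElem_range]
    have e1 : (i * m + j) / m = i := by
      rw [Nat.mul_comm i m, Nat.mul_add_div hm0, Nat.div_eq_of_lt hj, add_zero]
    have e2 : (i * m + j) % m = j := by
      rw [Nat.mul_add_mod_self_right]; exact Nat.mod_eq_of_lt hj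
    rw [e1, e2]
  have hT : IsTable m l' := by
    refine ⟨hm0, hlen, ?_, ?_⟩
    · intro x hx
      simp only [l', List.mem_map] at hx
      obtain ⟨q, -, rfl⟩ := hx
      exact (g.symm _).2
    · intro i hi j hj k hk
      rw [htm i hi j hj, htm j hj k hk, htm _ (g.symm _).2 k hk, htm i hi _ (g.symm _).2,
        hinv, hinv, mul_assoc]
  refine ⟨l', hT, hnm, ?_, ?_⟩
  · intro i hi j hj
    have hi' := lt_of_lt_of_le hi hnm
    have hj' := lt_of_lt_of_le hj hnm
    have hk : tmul n l i j < n := tmul_lt h i j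
    rw [htm i hi' j hj', hgg i hi', hgg j hj', hg i hi, hg j hj]
    have h1 : e' ⟨i, hi⟩ * e' ⟨j, hj⟩ = e' ⟨tmul n l i j, hk⟩ :=
      (map_mul e (show tableSg n l h from (⟨i, hi⟩ : Fin n))
        (show tableSg n l h from (⟨j, hj⟩ : Fin n))).symm
    rw [h1, ← hg _ hk, Equiv.symm_apply_apply]
  · let φ : R → tableSg m l' hT := fun x => (g.symm x : Fin m)
    have hφ : ∀ x y, φ (x * y) = φ x * φ y := by
      intro x y
      apply Fin.ext
      show ((g.symm (x * y) : Fin m) : ℕ) = tmul m l' (g.symm x : Fin m) (g.symm y : Fin m)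
      rw [htm _ (g.symm x).2 _ (g.symm y).2, hinv, hinv]
    exact ⟨MulEquiv.mk' (g.symm : R ≃ Fin m) hφ⟩

/-- the bound for the auxiliary semigroup -/
def bigM (n : ℕ) : ℕ := shpsB n ^ (2 ^ n * 2 ^ (n * n) + 1)

theorem shps_iff {n : ℕ} {l : List ℕ} (h : IsTable n l) :
    tableSg n l h ∈ opS (opH (opP (opS C0))) ↔
      ∃ m < bigM n + 1, ∃ l' : List ℕ, ∃ h' : IsTable m l', n ≤ m ∧
        (∀ i < n, ∀ j < n, tmul m l' i j = tmul n l i j) ∧
          Core (0 = 1) (2 ^ n * 2 ^ (n * n) + 1) (shpsB n) (tableSg m l' h') := by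
  constructor
  · rintro ⟨R0, ⟨A, ⟨k, T, hT, ⟨φ⟩⟩, f, hf⟩, e, he⟩
    let f1 : (∀ i, T i) →ₙ* R0 := f.comp (φ.symm : prodSg T →ₙ* A)
    have hf1 : Surjective f1 := hf.comp φ.symm.surjective
    choose C hC j hj using hT
    have hM := shps_nec C hC T j hj f1 hf1 e he
    obtain ⟨T', V, hT', R, g, e', hg, he'⟩ := shps_suf hM
    rw [card_tableSg h] at hT'
    have hcR : Nat.card R ≤ bigM n := by
      have := Fintype.ofFinite (Dig (tableSg n l h))
      have h1 : Nat.card R ≤ Nat.card (∀ D, V D) := Nat.card_le_card_of_surjective g hg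
      have h2 : Nat.card (∀ D, V D) = ∏ D, Nat.card (V D) := Nat.card_pi
      have h3 : ∏ D, Nat.card (V D) ≤ ∏ _D : Dig (tableSg n l h), shpsB n := by
        apply Finset.prod_le_prod'
        intro D _
        exact (Nat.card_le_card_of_injective _ Subtype.val_injective).trans (hT' D).2
      have h4 : ∏ _D : Dig (tableSg n l h), shpsB n = shpsB n ^ (2 ^ n * 2 ^ (n * n)) := by
        rw [Finset.prod_const, Finset.card_univ, ← Nat.card_eq_fintype_card, card_dig,
          card_tableSg h]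
      have h5 : shpsB n ^ (2 ^ n * 2 ^ (n * n)) ≤ bigM n :=
        Nat.pow_le_pow_right (by unfold shpsB RC.rmB; omega) (Nat.le_succ _)
      omega
    obtain ⟨l', h', hnm, hres, ⟨ψ⟩⟩ := exists_table h R e' he'
    refine ⟨Nat.card R, Nat.lt_succ_of_le hcR, l', h', hnm, hres, core_iso ψ ?_⟩
    refine core_of_index (ι := Dig (tableSg n l h)) (0 = 1)
      (by rw [card_dig, card_tableSg h]; omega) T' V ?_ g hg
    intro D
    exact ⟨(hT' D).1, (hT' D).2, fun h => by omega⟩
  · rintro ⟨m, -, l', h', hnm, hres, hc⟩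
    refine ⟨tableSg m l' h', hps_of_core hc,
      ⟨fun i : Fin n => (⟨i, lt_of_lt_of_le i.2 hnm⟩ : Fin m), ?_⟩, ?_⟩
    · intro (i : Fin n) (j : Fin n)
      apply Fin.ext
      exact (hres i i.2 j j.2).symm
    · intro (i : Fin n) (j : Fin n) hij
      have : (⟨i, lt_of_lt_of_le i.2 hnm⟩ : Fin m) = ⟨j, lt_of_lt_of_le j.2 hnm⟩ := hij
      simp only [Fin.mk.injEq] at this
      exact Fin.ext this

section prim
open Primrec

theorem shps_dec : DecClass (opS (opH (opP (opS C0)))) := by
  have hid : Primrec (fun n : ℕ => n) := Primrec.id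
  have hc : ∀ k : ℕ, Primrec (fun _ : ℕ => k) := fun k => Primrec.const k
  have hK : Primrec fun n : ℕ => 2 ^ n * 2 ^ (n * n) + 1 := prim_add prim_dig (hc 1)
  have hB : Primrec shpsB :=
    prim_rmB (prim_mul hid (prim_add hid (prim_mul hid hid)))
  have hM : Primrec bigM := prim_pow hB hK
  -- projections from `((ℕ × List ℕ) × ℕ) × ℕ`
  let X := ((ℕ × List ℕ) × ℕ) × ℕ
  have pn : Primrec fun x : X => x.1.1.1 := fst.comp (fst.comp fst)
  have pl : Primrec fun x : X => x.1.1.2 := snd.comp (fst.comp fst)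
  have pm : Primrec fun x : X => x.1.2 := snd.comp fst
  have pc : Primrec fun x : X => x.2 := snd
  have pN : Primrec fun x : X => bigM x.1.1.1 + 1 :=
    Primrec.nat_add.comp (hM.comp pn) (Primrec.const 1)
  have pL : Primrec fun x : X => dl (bigM x.1.1.1 + 1) (x.1.2 * x.1.2) x.2 := by
    unfold dl
    refine Primrec.list_map (Primrec.list_range.comp (Primrec.nat_mul.comp pm pm)) ?_
    exact Primrec.nat_mod.comp (Primrec.nat_div.comp (pc.comp fst)
      (powPrim.comp (pN.comp fst) snd)) (pN.comp fst)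
  have p1 : PrimrecPred fun x : X =>
      IsTable x.1.2 (dl (bigM x.1.1.1 + 1) (x.1.2 * x.1.2) x.2) :=
    isTablePrim.comp (pm.pair pL)
  have p2 : PrimrecPred fun x : X => x.1.1.1 ≤ x.1.2 := Primrec.nat_le.comp pn pm
  have p3 : PrimrecPred fun x : X => ∀ i < x.1.1.1, ∀ j < x.1.1.1,
      tmul x.1.2 (dl (bigM x.1.1.1 + 1) (x.1.2 * x.1.2) x.2) i j = tmul x.1.1.1 x.1.1.2 i j := by
    refine allLt (f := fun x : X => x.1.1.1) pn ?_
    refine allLt (f := fun x : X × ℕ => x.1.1.1.1) (pn.comp fst) ?_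
    have qi : Primrec fun x : (X × ℕ) × ℕ => x.1.2 := snd.comp fst
    have qj : Primrec fun x : (X × ℕ) × ℕ => x.2 := snd
    have q0 : Primrec fun x : (X × ℕ) × ℕ => x.1.1 := fst.comp fst
    exact Primrec.eq.comp (tmulPrim (pm.comp q0) (pL.comp q0) qi qj)
      (tmulPrim (pn.comp q0) (pl.comp q0) qi qj)
  have p4 : PrimrecPred fun x : X => mainF.ho (dl (bigM x.1.1.1 + 1) (x.1.2 * x.1.2) x.2)
      [x.1.2, 2 ^ x.1.1.1 * 2 ^ (x.1.1.1 * x.1.1.1) + 1, shpsB x.1.1.1,
        shpsB x.1.1.1 + x.1.2 + 2, 0] := by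
    have h2 : Primrec fun x : X => 2 ^ x.1.1.1 * 2 ^ (x.1.1.1 * x.1.1.1) + 1 := hK.comp pn
    have h3 : Primrec fun x : X => shpsB x.1.1.1 := hB.comp pn
    have h4 : Primrec fun x : X => shpsB x.1.1.1 + x.1.2 + 2 :=
      Primrec.nat_add.comp (Primrec.nat_add.comp h3 pm) (Primrec.const 2)
    exact mainF.prim.comp (pL.pair (Primrec.list_cons.comp pm (Primrec.list_cons.comp h2
      (Primrec.list_cons.comp h3 (Primrec.list_cons.comp h4 (Primrec.const [0]))))))
  have p5 : PrimrecPred fun x : ℕ × List ℕ => ∃ m < bigM x.1 + 1,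
      ∃ c < (bigM x.1 + 1) ^ (m * m),
        IsTable m (dl (bigM x.1 + 1) (m * m) c) ∧ x.1 ≤ m ∧ (∀ i < x.1, ∀ j < x.1,
          tmul m (dl (bigM x.1 + 1) (m * m) c) i j = tmul x.1 x.2 i j) ∧
        mainF.ho (dl (bigM x.1 + 1) (m * m) c)
          [m, 2 ^ x.1 * 2 ^ (x.1 * x.1) + 1, shpsB x.1, shpsB x.1 + m + 2, 0] := by
    refine exLt (f := fun x : ℕ × List ℕ => bigM x.1 + 1)
      (Primrec.nat_add.comp (hM.comp fst) (Primrec.const 1)) ?_
    refine exLt (f := fun x : (ℕ × List ℕ) × ℕ => (bigM x.1.1 + 1) ^ (x.2 * x.2)) ?_ ?_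
    · exact powPrim.comp (Primrec.nat_add.comp (hM.comp (fst.comp fst)) (Primrec.const 1))
        (Primrec.nat_mul.comp snd snd)
    · exact p1.and (p2.and (p3.and p4))
  have h2 : PrimrecPred fun x : ℕ × List ℕ => ∃ h : IsTable x.1 x.2,
      tableSg x.1 x.2 h ∈ opS (opH (opP (opS C0))) := by
    refine (isTablePrim.and p5).of_eq fun x => ?_
    constructor
    · rintro ⟨h, m, hm, c, -, h', hnm, hres, hho⟩
      refine ⟨h, (shps_iff h).2 ⟨m, hm, _, h', hnm, hres, ?_⟩⟩
      obtain ⟨ms, -, mt, -, mu, -, mg, -, hok⟩ := (mainF_ho _ _ _ _ _ _).1 hho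
      exact core_of_num h' hok
    · rintro ⟨h, hmem⟩
      obtain ⟨m, hm, l', h', hnm, hres, hcore⟩ := (shps_iff h).1 hmem
      obtain ⟨c, hc1, hc2⟩ := exists_dl (bigM x.1 + 1) l'
        (fun y hy => lt_of_lt_of_le (h'.2.2.1 y hy) hm.le)
      rw [h'.2.1] at hc1 hc2
      refine ⟨h, m, hm, c, hc1, ?_⟩
      rw [hc2]
      exact ⟨h', hnm, hres, (mainF_ho _ _ _ _ _ _).2 (num_of_core h' le_rfl hcore)⟩
  obtain ⟨hd, hp⟩ := h2
  exact ⟨hd, hp.to_comp⟩

end prim

end

/-- For each of the three operators `HP`, `HPS`, `SHPS`, the class `K(C₀)` is decidable. -/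
theorem result :
    DecClass (opH (opP C0)) ∧ DecClass (opH (opP (opS C0))) ∧
      DecClass (opS (opH (opP (opS C0)))) :=
  ⟨hp_dec, hps_dec, shps_dec⟩

end Pool.Agent.Results.MP_99598b_lc.Decidable
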